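import Mathlib

/-! A scale-invariant function with values in characteristic two which satisfies a short linear
recurrence along all fine progressions is locally constant. -/

set_option autoImplicit false

namespace Pool.Agent.P.MP_8be758_nt.Par

open Polynomial Finset

variable {G K : Type} [AddCommGroup G] [Field K] {ι : G →+ ℂ} {f : G → K} {p q : K[X]} {R S : ℝ}

/-- The recurrence with coefficients `p` along the progression `α + i d`. -/
noncomputable def ann (f : G → K) (α d : G) : K[X] →ₗ[K] K :=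
  lsum fun i => LinearMap.mulRight K (f (α + i • d))

theorem ann_monomial (α d : G) (i : ℕ) (a : K) : ann f α d (monomial i a) = a * f (α + i • d) := by
  simp [ann, sum_monomial_index]

theorem ann_monomial_mul (α d : G) (k : ℕ) (a : K) (p : K[X]) :
    ann f α d (monomial k a * p) = a * ann f (α + k • d) d p := by
  induction p using Polynomial.induction_on' with
  | add p q hp hq => rw [mul_add, map_add, map_add, hp, hq, mul_add]
  | monomial i b => rw [monomial_mul_monomial, ann_monomial, ann_monomial, add_nsmul, add_assoc,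
      mul_assoc]

theorem ann_expand (α d : G) (m : ℕ) (p : K[X]) : ann f α d (expand K m p) = ann f α (m • d) p := by
  induction p using Polynomial.induction_on' with
  | add p q hp hq => rw [map_add, map_add, map_add, hp, hq]
  | monomial i b => rw [expand_monomial, ann_monomial, ann_monomial, mul_nsmul']

theorem ann_scale {m : ℕ} (hf : ∀ z, f (m • z) = f z) (α d : G) (p : K[X]) :
    ann f (m • α) (m • d) p = ann f α d p := by
  induction p using Polynomial.induction_on' with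
  | add p q hp hq => rw [map_add, map_add, hp, hq]
  | monomial i b => rw [ann_monomial, ann_monomial, smul_comm i m, ← smul_add, hf]

/-- `p` annihilates `f` along the progressions of fineness `S` starting in the disc of radius `R`. -/
def Ann (ι : G →+ ℂ) (f : G → K) (p : K[X]) (R S : ℝ) : Prop :=
  ∀ α d : G, S * ‖ι d‖ ≤ ‖ι α‖ → ‖ι α‖ ≤ R → ann f α d p = 0

theorem Ann.mono (h : Ann ι f p R S) {R' S' : ℝ} (hR : R' ≤ R) (hS : S ≤ S') : Ann ι f p R' S' :=
  fun α d h1 h2 => h α d ((mul_le_mul_of_nonneg_right hS (norm_nonneg _)).trans h1) (h2.trans hR)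

theorem norm_nsmul' (m : ℕ) (z : G) : ‖ι (m • z)‖ = m * ‖ι z‖ := by
  rw [map_nsmul, nsmul_eq_mul, norm_mul, Complex.norm_natCast]

theorem Ann.mul (h : Ann ι f p R S) (hS : 0 ≤ S) {D : ℕ} (hq : q.natDegree ≤ D) :
    Ann ι f (q * p) (R / 2) (S + D) := fun α d h1 h2 => by
  rw [q.as_sum_range' (D + 1) (by omega), sum_mul, map_sum]
  refine sum_eq_zero fun k hk => ?_
  have hk' : (k : ℝ) * ‖ι d‖ ≤ D * ‖ι d‖ := mul_le_mul_of_nonneg_right
    (by exact_mod_cast Nat.lt_succ_iff.1 (mem_range.1 hk)) (norm_nonneg _)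
  have e1 := norm_add_le (ι α) (ι (k • d))
  have e2 := norm_sub_le (ι α + ι (k • d)) (ι (k • d))
  rw [add_sub_cancel_right] at e2
  rw [← map_add, norm_nsmul'] at e1 e2
  have := mul_nonneg hS (norm_nonneg (ι d))
  rw [ann_monomial_mul, h _ _ (by linarith) (by linarith), mul_zero]

theorem Ann.of_dvd (h : Ann ι f p R S) (hS : 0 ≤ S) {D : ℕ} (hd : p ∣ q) (hq : q.natDegree ≤ D) :
    Ann ι f q (R / 2) (S + D) := by
  obtain ⟨u, rfl⟩ := hd
  rcases eq_or_ne (p * u) 0 with h0 | h0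
  · exact fun α d _ _ => by rw [h0, map_zero]
  rw [mul_comm]
  exact h.mul hS ((natDegree_le_of_dvd (dvd_mul_left u p) h0).trans hq)

theorem Ann.expand (h : Ann ι f p R S) (m : ℕ) : Ann ι f (expand K m p) R (S * m) :=
  fun α d h1 h2 => by rw [ann_expand, h _ _ (by rwa [norm_nsmul', ← mul_assoc]) h2]

theorem Ann.contract {m : ℕ} (hm : 1 ≤ m) (hf : ∀ z, f (m • z) = f z)
    (h : Ann ι f (Polynomial.expand K m p) R S) : Ann ι f p (R / m) S := fun α d h1 h2 => by
  have hm' : (1 : ℝ) ≤ m := by exact_mod_cast hm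
  rw [le_div_iff₀' (by linarith)] at h2
  rw [← ann_scale hf, ← ann_expand, h _ _ _ (by rwa [norm_nsmul'])]
  rw [norm_nsmul']
  exact h1.trans (le_mul_of_one_le_left (norm_nonneg _) hm')

theorem ann_gcd {n D : ℕ} (p : Fin (n + 1) → K[X]) (h0 : p 0 ≠ 0) (hD : ∀ i, (p i).natDegree ≤ D)
    (hS : 0 ≤ S) (h : ∀ i, Ann ι f (p i) R S) :
    ∃ g : K[X], g ≠ 0 ∧ (∀ i, g ∣ p i) ∧ Ann ι f g (R / 2) (S + (2 * D : ℕ)) := by
  obtain ⟨g, hg⟩ := (IsPrincipalIdealRing.principal (Ideal.span (Set.range p))).principal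
  have hd : ∀ i, g ∣ p i := fun i => Ideal.mem_span_singleton.1
    (hg ▸ Ideal.subset_span (Set.mem_range_self i) : p i ∈ Submodule.span K[X] {g})
  obtain ⟨u, hu⟩ := Ideal.mem_span_range_iff_exists_fun.1
    (hg ▸ Ideal.mem_span_singleton_self g : g ∈ Ideal.span (Set.range p))
  have hm : ∀ i, (u i % p 0).natDegree ≤ D := fun i =>
    (natDegree_le_natDegree (degree_mod_lt _ h0).le).trans (hD 0)
  have e : (∑ i, u i / p 0 * p i) * p 0 = g - ∑ i, u i % p 0 * p i := by
    rw [← hu, ← sum_sub_distrib, sum_mul]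
    exact sum_congr rfl fun i _ => by
      linear_combination p i * EuclideanDomain.div_add_mod (u i) (p 0)
  refine ⟨g, ne_zero_of_dvd_ne_zero h0 (hd 0), hd, fun α d h1 h2 => ?_⟩
  have h3 := (h 0).of_dvd hS (D := 2 * D) (q := g - ∑ i, u i % p 0 * p i) (e ▸ dvd_mul_left _ _)
    ((natDegree_sub_le _ _).trans (max_le ((natDegree_le_of_dvd (hd 0) h0).trans
      ((hD 0).trans (by omega))) (natDegree_sum_le_of_forall_le _ _ fun i _ =>
        natDegree_mul_le.trans (by have := hm i; have := hD i; omega)))) α d h1 h2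
  rwa [map_sub, map_sum, sum_eq_zero fun i _ => (h i).mul hS ((hm i).trans (by omega : D ≤ 2 * D))
    α d h1 h2, sub_zero] at h3

theorem dvd_of_roots [IsAlgClosed K] (hp : p ≠ 0) (g : K → K[X])
    (h : ∀ a ∈ p.roots, X - C a ∣ g a) : p ∣ (p.roots.map g).prod := by
  conv_lhs => rw [← C_leadingCoeff_mul_prod_multiset_X_sub_C
    (IsAlgClosed.card_roots_eq_natDegree (p := p))]
  exact (isUnit_C.2 (leadingCoeff_ne_zero.2 hp).isUnit).mul_left_dvd.2
    (Multiset.prod_dvd_prod_of_dvd _ _ h)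

theorem small_order {n : ℕ} {c : K[X]} (hc : c ≠ 0) (hn : c.natDegree ≤ n) {ζ : K} (h0 : ζ ≠ 0)
    (h : ∀ i : Fin (n + 1), c.IsRoot (ζ ^ (i + 1 : ℕ))) : ∃ r, 0 < r ∧ r ≤ n ∧ ζ ^ r = 1 := by
  classical
  obtain ⟨i, -, j, -, hij, e⟩ := exists_ne_map_eq_of_card_lt_of_maps_to (s := univ)
    (t := c.roots.toFinset) (f := fun i : Fin (n + 1) => ζ ^ (i + 1 : ℕ))
    (by simpa using Nat.lt_succ_of_le (((Multiset.toFinset_card_le _).trans (card_roots' c)).trans hn))
    fun i _ => by simpa [hc] using h i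
  wlog hlt : i < j generalizing i j
  · exact this j i hij.symm e.symm (lt_of_le_of_ne (not_lt.1 hlt) hij.symm)
  refine ⟨j - i, by omega, by omega, mul_left_cancel₀ (pow_ne_zero (i + 1) h0) ?_⟩
  rw [← pow_add, mul_one, e]
  congr 1
  omega

theorem eq_one_of_pow {n : ℕ} {ξ : K} (h : ∀ i : Fin (n + 1), ∃ (ζ : K) (r : ℕ), 0 < r ∧ r ≤ n ∧
    ζ ^ r = 1 ∧ ξ = ζ ^ (i + 1 : ℕ)) : ξ = 1 := by
  by_contra h1
  have hl := Nat.minFac_prime (mt orderOf_eq_one_iff.1 h1)
  have hm := Nat.pow_log_le_self (orderOf ξ).minFac (Nat.succ_ne_zero n)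
  have hm0 := pow_pos hl.pos ((orderOf ξ).minFac.log (n + 1))
  obtain ⟨ζ, r, r0, rn, h2, h3⟩ := h ⟨_ - 1, Nat.lt_of_lt_of_le (Nat.sub_one_lt hm0.ne') hm⟩
  obtain ⟨a, s, hs, rfl⟩ := Nat.exists_eq_pow_mul_and_not_dvd r0.ne' _ hl.ne_one
  obtain ⟨b, hb⟩ := pow_dvd_pow (orderOf ξ).minFac (Nat.le_log_of_pow_le hl.one_lt
    ((Nat.le_of_dvd r0 (dvd_mul_right _ s)).trans (rn.trans n.le_succ)))
  refine hs ((Nat.minFac_dvd _).trans (orderOf_dvd_of_pow_eq_one ?_))
  simp only [Nat.sub_add_cancel hm0] at h3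
  rw [Nat.succ_eq_add_one] at hb
  rw [hb] at h3
  generalize (orderOf ξ).minFac = l at *
  rw [h3, ← pow_mul, mul_right_comm, pow_mul, h2, one_pow]

theorem loc [IsAlgClosed K] [CharP K 2] (hf : ∀ m : ℕ, 1 ≤ m → ∀ z, f (m • z) = f z) {n : ℕ}
    {c : K[X]} (hc : c ≠ 0) (hn : c.natDegree < n) (hR : 0 ≤ R) (h : Ann ι f c R (2 * n)) (β d : G)
    (h1 : 12 * n ^ 2 * ‖ι d‖ ≤ ‖ι β‖) (h2 : ‖ι β‖ ≤ R / (64 * n ^ 2)) : f (β + d) = f β := by
  obtain ⟨k, rfl⟩ : ∃ k, n = k + 1 := ⟨n - 1, by omega⟩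
  obtain ⟨n, hk⟩ : ∃ n, n = k + 1 := ⟨_, rfl⟩
  rw [← hk] at h h1 h2
  have n1 : (1 : ℝ) ≤ n := by exact_mod_cast (by omega : 1 ≤ n)
  have hi : ∀ i : Fin (k + 1), (i + 1 : ℕ) ≤ n := fun i => by omega
  obtain ⟨g, g0, gd, hg⟩ := ann_gcd (ι := ι) (f := f) (R := R) (S := 2 * n * n) (D := n * n)
    (fun i : Fin (k + 1) => expand K (i + 1) c) (by simpa using hc)
    (fun i => by rw [natDegree_expand]; exact Nat.mul_le_mul (by omega) (by omega))
    (by positivity) fun i => (h.expand _).mono le_rfl (by gcongr; exact hi i)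
  have gn : g.roots.card ≤ n := (card_roots' g).trans
    ((natDegree_le_of_dvd (by simpa using gd 0) hc).trans (by omega))
  obtain ⟨u, u0, ud, hu⟩ := ann_gcd (ι := ι) (f := f) (R := R / 2 / 2 / n) (S := 5 * n ^ 2) (D := n)
    (fun i : Fin (k + 1) => ((g.roots.map (· ^ (i + 1 : ℕ))).map fun a => X - C a).prod)
    (monic_multisetProd_X_sub_C _).ne_zero
    (fun i => by rwa [natDegree_multiset_prod_X_sub_C_eq_card, Multiset.card_map])
    (by positivity) fun i => by
      refine (Ann.contract (by omega) (hf (i + 1) (by omega)) (hg.of_dvd (by positivity)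
        (D := n * n) ?_ ?_)).mono (by gcongr; exact hi i) (le_of_eq (by push_cast; ring))
      · rw [map_multiset_prod, Multiset.map_map, Multiset.map_map]
        exact dvd_of_roots g0 _ fun a _ => by simpa using sub_dvd_pow_sub_pow X (C a) (i + 1)
      · rw [natDegree_expand, natDegree_multiset_prod_X_sub_C_eq_card, Multiset.card_map]
        exact Nat.mul_le_mul gn (by omega)
  have un : u.roots.card ≤ n := (card_roots' u).trans ((natDegree_le_of_dvd (ud 0)
    (monic_multisetProd_X_sub_C _).ne_zero).trans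
      (by rwa [natDegree_multiset_prod_X_sub_C_eq_card, Multiset.card_map]))
  have ur : ∀ ξ ∈ u.roots, X - C ξ ∣ X ^ 2 - X := fun ξ hξ => dvd_iff_isRoot.2 (by
    rcases eq_or_ne ξ 0 with rfl | ξ0
    · simp
    rw [eq_one_of_pow (ξ := ξ) (n := k) fun i => ?_]
    · simp
    have := Multiset.mem_of_le (roots.le_of_dvd (monic_multisetProd_X_sub_C _).ne_zero (ud i)) hξ
    rw [roots_multiset_prod_X_sub_C] at this
    obtain ⟨ζ, hζ, e⟩ := Multiset.mem_map.1 this
    obtain ⟨r, hr⟩ := small_order hc (Nat.lt_succ_iff.1 hn) (ζ := ζ)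
      (fun h => ξ0 (by rw [← e, h]; simp)) fun j => by
        simpa using ((mem_roots g0).1 hζ).dvd (gd j)
    exact ⟨ζ, r, hr.1, hr.2.1, hr.2.2, e.symm⟩)
  obtain ⟨q, hq⟩ : ∃ q, q = 2 ^ (Nat.log 2 n + 1) := ⟨_, rfl⟩
  have q1 : n < q := hq ▸ Nat.lt_pow_succ_log_self one_lt_two n
  have q2 : q ≤ 2 * n := by
    have := Nat.pow_log_le_self 2 (by omega : n ≠ 0)
    rw [hq, pow_succ]
    omega
  have key := Ann.contract (by omega : 1 ≤ q) (hf q (by omega)) (hu.of_dvd (by positivity)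
    (q := expand K q (X ^ 2 - X)) (D := 4 * n) (by
      refine (dvd_of_roots u0 _ ur).trans ?_
      rw [Multiset.map_const', Multiset.prod_replicate, map_sub, map_pow, expand_X, pow_right_comm,
        hq, ← sub_pow_char_pow]
      exact pow_dvd_pow _ (by omega)) (by
      rw [natDegree_expand]
      have : (X ^ 2 - X : K[X]).natDegree ≤ 2 := by compute_degree
      nlinarith)) (β - d) d ?_ ?_
  · rw [map_sub, ← monomial_one_right_eq_X_pow, ← monomial_one_one_eq_X, ann_monomial, ann_monomial,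
      one_mul, one_mul, sub_eq_zero] at key
    convert key using 2 <;> module
  · have e := norm_add_le (ι (β - d)) (ι d)
    rw [← map_add, sub_add_cancel] at e
    have : (5 * n ^ 2 + (2 * n : ℕ) + (4 * n : ℕ) + 1 : ℝ) ≤ 12 * n ^ 2 := by
      push_cast
      nlinarith
    nlinarith [mul_le_mul_of_nonneg_right this (norm_nonneg (ι d))]
  · have e := norm_sub_le (ι β) (ι d)
    rw [← map_sub] at e
    have e2 : ‖ι d‖ ≤ ‖ι β‖ := le_trans (le_mul_of_one_le_left (norm_nonneg _) (by nlinarith)) h1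
    have q3 : (q : ℝ) ≤ 2 * n := by exact_mod_cast q2
    have q4 : (0 : ℝ) < q := by exact_mod_cast (by omega : 0 < q)
    calc ‖ι (β - d)‖ ≤ 2 * (R / (64 * n ^ 2)) := by linarith
      _ = R / 2 / 2 / n / 2 / 2 / (2 * n) := by field_simp; ring
      _ ≤ _ := by gcongr

end Pool.Agent.P.MP_8be758_nt.Par
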