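import Mathlib

/-! The quadratic order `Z[ω]`, `ω ^ 2 = ω - A`, as a lattice, and the parity of `Ω` of norms. -/

set_option autoImplicit false

namespace Pool.Agent.P.MP_8be758_nt.Par

open ArithmeticFunction (cardFactors)

/-- The norm form. -/
def nq (A : ℕ) (z : ℤ × ℤ) : ℤ := z.1 ^ 2 + z.1 * z.2 + A * z.2 ^ 2

/-- The multiplication of `Z[ω]`. -/
def mul (A : ℕ) (z w : ℤ × ℤ) : ℤ × ℤ :=
  (z.1 * w.1 - A * z.2 * w.2, z.1 * w.2 + z.2 * w.1 + z.2 * w.2)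

/-- The conjugation of `Z[ω]`. -/
def cj (z : ℤ × ℤ) : ℤ × ℤ := (z.1 + z.2, -z.2)

/-- The determinant of two lattice vectors. -/
def det (z w : ℤ × ℤ) : ℤ := z.1 * w.2 - z.2 * w.1

/-- The generator `ω`. -/
noncomputable def om (A : ℕ) : ℂ := ⟨1 / 2, √(4 * A - 1) / 2⟩

/-- The embedding in the complex plane. -/
noncomputable def io (A : ℕ) (z : ℤ × ℤ) : ℂ := z.1 + z.2 * om A

/-- The parity of the number of prime factors of the norm. -/
def et (A : ℕ) (z : ℤ × ℤ) : ZMod 2 := (cardFactors (nq A z).natAbs : ZMod 2)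

variable {A : ℕ} {z w : ℤ × ℤ}

theorem nq_mul (z w : ℤ × ℤ) : nq A (mul A z w) = nq A z * nq A w := by
  simp only [nq, mul]
  ring

theorem nq_cj (z : ℤ × ℤ) : nq A (cj z) = nq A z := by
  simp only [nq, cj]
  ring

theorem nq_neg (z : ℤ × ℤ) : nq A (-z) = nq A z := by
  simp only [nq, Prod.fst_neg, Prod.snd_neg]
  ring

theorem nq_smul (m : ℤ) (z : ℤ × ℤ) : nq A (m • z) = m ^ 2 * nq A z := by
  simp only [nq, Prod.smul_fst, Prod.smul_snd, smul_eq_mul]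
  ring

theorem sq_le_nq (hA : 2 ≤ A) (z : ℤ × ℤ) : z.1 ^ 2 ≤ 4 * nq A z ∧ 7 * z.2 ^ 2 ≤ 4 * nq A z := by
  have h : (2 : ℤ) * z.2 ^ 2 ≤ A * z.2 ^ 2 :=
    mul_le_mul_of_nonneg_right (by exact_mod_cast hA) (sq_nonneg _)
  unfold nq
  constructor <;> nlinarith [sq_nonneg (z.1 + z.2), sq_nonneg (2 * z.1 + z.2), sq_nonneg z.1,
    sq_nonneg z.2]

theorem nq_pos (hA : 2 ≤ A) (hz : z ≠ 0) : 0 < nq A z := by
  obtain ⟨h1, h2⟩ := sq_le_nq hA z
  by_contra h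
  exact hz (Prod.ext (pow_eq_zero_iff two_ne_zero |>.1 (by nlinarith [sq_nonneg z.1]))
    (pow_eq_zero_iff two_ne_zero |>.1 (by nlinarith [sq_nonneg z.2])))

theorem ne_zero_of_nq (h : nq A z ≠ 0) : z ≠ 0 := by
  rintro rfl
  exact h (by simp [nq])

theorem mul_ne (hA : 2 ≤ A) (hz : z ≠ 0) (hw : w ≠ 0) : mul A z w ≠ 0 :=
  ne_zero_of_nq (A := A) (by rw [nq_mul]; exact (mul_pos (nq_pos hA hz) (nq_pos hA hw)).ne')

theorem cj_ne (hA : 2 ≤ A) (hz : z ≠ 0) : cj z ≠ 0 :=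
  ne_zero_of_nq (A := A) (by rw [nq_cj]; exact (nq_pos hA hz).ne')

theorem et_mul (hA : 2 ≤ A) (hz : z ≠ 0) (hw : w ≠ 0) : et A (mul A z w) = et A z + et A w := by
  unfold et
  rw [nq_mul, Int.natAbs_mul, ArithmeticFunction.cardFactors_mul
    (Int.natAbs_ne_zero.2 (nq_pos hA hz).ne') (Int.natAbs_ne_zero.2 (nq_pos hA hw).ne'), Nat.cast_add]

theorem et_cj (z : ℤ × ℤ) : et A (cj z) = et A z := by rw [et, nq_cj, et]

theorem et_neg (z : ℤ × ℤ) : et A (-z) = et A z := by rw [et, nq_neg, et]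

theorem card_sq_mul {m n : ℕ} (hm : m ≠ 0) : (cardFactors (m ^ 2 * n) : ZMod 2) = cardFactors n := by
  rcases eq_or_ne n 0 with rfl | hn
  · simp
  rw [ArithmeticFunction.cardFactors_mul (pow_ne_zero 2 hm) hn, ArithmeticFunction.cardFactors_pow,
    Nat.cast_add, two_mul, Nat.cast_add, CharTwo.add_self_eq_zero, zero_add]

theorem et_smul {m : ℤ} (hm : m ≠ 0) (z : ℤ × ℤ) : et A (m • z) = et A z := by
  rw [et, nq_smul, Int.natAbs_mul, Int.natAbs_pow, card_sq_mul (Int.natAbs_ne_zero.2 hm), et]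

theorem et_int (m : ℤ) : et A (m, 0) = 0 := by
  rcases eq_or_ne m 0 with rfl | hm
  · simp [et, nq]
  rw [show ((m, 0) : ℤ × ℤ) = m • (1, 0) by simp, et_smul hm]
  simp [et, nq]

theorem mul_cj_snd (z w : ℤ × ℤ) : (mul A z (cj w)).2 = -det z w := by
  simp only [mul, cj, det]
  ring

theorem et_eq_of_det (hA : 2 ≤ A) (hz : z ≠ 0) (hw : w ≠ 0) (h : det z w = 0) :
    et A z = et A w := by
  have h1 := et_mul hA hz (cj_ne hA hw)
  rw [show mul A z (cj w) = ((mul A z (cj w)).1, 0) from Prod.ext rfl (by rw [mul_cj_snd, h, neg_zero]),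
    et_int, et_cj] at h1
  exact CharTwo.add_eq_zero.1 h1.symm

theorem sq_sqrt_disc (hA : 2 ≤ A) : √(4 * A - 1) ^ 2 = (4 * A - 1 : ℝ) :=
  Real.sq_sqrt (by
    have : (2 : ℝ) ≤ A := by exact_mod_cast hA
    linarith)

theorem om_sq (hA : 2 ≤ A) : om A ^ 2 = om A - A := by
  apply Complex.ext <;> simp [om, sq]
  · linear_combination (-1 / 4 : ℝ) * sq_sqrt_disc hA
  · ring

theorem io_mul (hA : 2 ≤ A) (z w : ℤ × ℤ) : io A (mul A z w) = io A z * io A w := by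
  simp only [io, mul]
  push_cast
  linear_combination (-(z.2 * w.2 : ℂ)) * om_sq hA

theorem io_cj (z : ℤ × ℤ) : io A (cj z) = (starRingEnd ℂ) (io A z) := by
  apply Complex.ext <;> simp [io, cj, om]
  ring

theorem io_add (z w : ℤ × ℤ) : io A (z + w) = io A z + io A w := by
  simp only [io, Prod.fst_add, Prod.snd_add]
  push_cast
  ring

theorem io_smul (m : ℤ) (z : ℤ × ℤ) : io A (m • z) = m * io A z := by
  simp only [io, Prod.smul_fst, Prod.smul_snd, smul_eq_mul]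
  push_cast
  ring

theorem io_neg (z : ℤ × ℤ) : io A (-z) = -io A z := by simpa using io_smul (A := A) (-1) z

theorem io_sub (z w : ℤ × ℤ) : io A (z - w) = io A z - io A w := by
  rw [sub_eq_add_neg, io_add, io_neg, sub_eq_add_neg]

theorem io_nsmul (m : ℕ) (z : ℤ × ℤ) : io A (m • z) = m * io A z := by
  simpa using io_smul (A := A) m z

theorem norm_io_sq (hA : 2 ≤ A) (z : ℤ × ℤ) : ‖io A z‖ ^ 2 = nq A z := by
  rw [Complex.sq_norm, Complex.normSq_apply]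
  simp [io, om, nq]
  linear_combination (z.2 ^ 2 / 4 : ℝ) * sq_sqrt_disc hA

theorem one_le_norm_io (hA : 2 ≤ A) (hz : z ≠ 0) : 1 ≤ ‖io A z‖ := by
  have h : (1 : ℝ) ≤ nq A z := by exact_mod_cast nq_pos hA hz
  rw [← norm_io_sq hA] at h
  nlinarith [norm_nonneg (io A z)]

theorem norm_om_le (hA : 2 ≤ A) : ‖om A‖ ≤ A := by
  have h := norm_io_sq hA (0, 1)
  have h2 : (2 : ℝ) ≤ A := by exact_mod_cast hA
  simp [io, nq] at h
  nlinarith [norm_nonneg (om A)]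

theorem norm_io_le (hA : 2 ≤ A) {Q : ℝ} (h1 : |(z.1 : ℝ)| ≤ Q) (h2 : |(z.2 : ℝ)| ≤ Q) :
    ‖io A z‖ ≤ (A + 1) * Q := by
  have h3 := norm_om_le hA
  calc ‖io A z‖ ≤ ‖(z.1 : ℂ)‖ + ‖(z.2 : ℂ) * om A‖ := norm_add_le _ _
    _ = |(z.1 : ℝ)| + |(z.2 : ℝ)| * ‖om A‖ := by simp
    _ ≤ Q + Q * A := add_le_add h1 (mul_le_mul h2 h3 (norm_nonneg _) ((abs_nonneg _).trans h2))
    _ = _ := by ring

theorem max_le_norm_io (hA : 2 ≤ A) (z : ℤ × ℤ) :
    ((max z.1.natAbs z.2.natAbs : ℕ) : ℝ) ≤ 2 * ‖io A z‖ := by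
  obtain ⟨h1, h2⟩ := sq_le_nq hA z
  have key : ∀ u : ℤ, u ^ 2 ≤ 4 * nq A z → (u.natAbs : ℝ) ≤ 2 * ‖io A z‖ := fun u h => by
    refine abs_le_of_sq_le_sq' ?_ (by positivity) |>.2
    rw [mul_pow, norm_io_sq hA, Nat.cast_natAbs, Int.cast_abs, sq_abs]
    exact_mod_cast h
  rw [Nat.cast_max]
  exact max_le (key _ h1) (key _ (by nlinarith [sq_nonneg z.2]))

/-- Two vectors of different parity are separated by a Farey edge with a change of parity. -/
theorem exists_edge (hA : 2 ≤ A) (P : ℤ × ℤ → Prop)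
    (hP : ∀ (z w v : ℤ × ℤ) (D s t : ℤ), 0 < D → 0 ≤ s → 0 ≤ t → s + t ≤ D →
      D • v = s • z + t • w → P z → P w → P v) (n : ℕ) :
    ∀ z w : ℤ × ℤ, z ≠ 0 → w ≠ 0 → P z → P w → det z w = n → et A z ≠ et A w →
      ∃ a m : ℤ × ℤ, a ≠ 0 ∧ m ≠ 0 ∧ P a ∧ P m ∧ det a m = 1 ∧ et A a ≠ et A m := by
  induction n using Nat.strong_induction_on with
  | _ n ih =>
    intro z w hz hw pz pw hd he
    obtain rfl | rfl | hn : n = 0 ∨ n = 1 ∨ 2 ≤ n := by omega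
    · exact absurd (et_eq_of_det hA hz hw hd) he
    · exact ⟨z, w, hz, hw, pz, pw, hd, he⟩
    have hn0 : (0 : ℤ) < n := by omega
    obtain ⟨v, s, t, hst, hv⟩ : ∃ (v : ℤ × ℤ) (s t : ℤ), ¬((n : ℤ) ∣ s ∧ (n : ℤ) ∣ t) ∧
        (n : ℤ) • v = s • z + t • w := by
      by_cases h : (n : ℤ) ∣ w.2 ∧ (n : ℤ) ∣ -z.2
      · refine ⟨(0, 1), -w.1, z.1, fun h' => ?_, ?_⟩
        · obtain ⟨⟨a, ha⟩, ⟨b, hb⟩⟩ := h
          obtain ⟨⟨c, hc⟩, ⟨d, hd'⟩⟩ := h'
          have : (n : ℤ) ∣ 1 := ⟨d * a - b * c, mul_left_cancel₀ hn0.ne' (by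
            unfold det at hd
            linear_combination -hd + z.1 * ha + n * a * hd' - w.1 * hb - n * b * hc
              + 2 * w.1 * hb)⟩
          have := Int.le_of_dvd one_pos this
          omega
        · rw [← hd]
          ext <;> simp [det] <;> ring
      · refine ⟨(1, 0), w.2, -z.2, h, ?_⟩
        rw [← hd]
        ext <;> simp [det] <;> ring
    obtain ⟨v, s, t, s0, t0, s1, t1, hst, hv⟩ : ∃ (v : ℤ × ℤ) (s t : ℤ), 0 ≤ s ∧ 0 ≤ t ∧ s < n ∧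
        t < n ∧ 0 < s + t ∧ (n : ℤ) • v = s • z + t • w := by
      have s0 := Int.emod_nonneg s hn0.ne'
      have t0 := Int.emod_nonneg t hn0.ne'
      refine ⟨v - (s / n) • z - (t / n) • w, s % n, t % n, s0, t0, Int.emod_lt_of_pos _ hn0,
        Int.emod_lt_of_pos _ hn0, ?_, ?_⟩
      · by_contra h
        exact hst ⟨Int.dvd_of_emod_eq_zero (by omega), Int.dvd_of_emod_eq_zero (by omega)⟩
      · rw [smul_sub, smul_sub, hv, Int.emod_def, Int.emod_def]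
        module
    obtain ⟨v, s, t, s0, t0, s1, t1, hst, hle, hv⟩ : ∃ (v : ℤ × ℤ) (s t : ℤ), 0 ≤ s ∧ 0 ≤ t ∧ s < n ∧
        t < n ∧ 0 < s + t ∧ s + t ≤ n ∧ (n : ℤ) • v = s • z + t • w := by
      by_cases h : s + t ≤ n
      · exact ⟨v, s, t, s0, t0, s1, t1, hst, h, hv⟩
      · refine ⟨z + w - v, n - s, n - t, by omega, by omega, by omega, by omega, by omega, by omega, ?_⟩
        rw [smul_sub, hv]
        module
    have e1 := congrArg Prod.fst hv
    have e2 := congrArg Prod.snd hv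
    simp only [Prod.smul_fst, Prod.smul_snd, Prod.fst_add, Prod.snd_add, smul_eq_mul] at e1 e2
    have d1 : det z v = t := mul_left_cancel₀ hn0.ne' (by
      unfold det at hd ⊢
      linear_combination z.1 * e2 - z.2 * e1 + t * hd)
    have d2 : det v w = s := mul_left_cancel₀ hn0.ne' (by
      unfold det at hd ⊢
      linear_combination w.2 * e1 - w.1 * e2 + s * hd)
    have hv0 : v ≠ 0 := by
      rintro rfl
      simp [det] at d1 d2
      omega
    have pv := hP z w v n s t hn0 s0 t0 hle hv pz pw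
    by_cases h : et A z = et A v
    · exact ih s.toNat (by omega) v w hv0 hw pv pw (by omega) (h ▸ he)
    · exact ih t.toNat (by omega) z v hz hv0 pz pv (by omega) h

end Pool.Agent.P.MP_8be758_nt.Par
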