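import Pool.Agent.P.MP_8be758_nt.Par.Geo

/-! Edges with a change of parity are counted by divisors of the values `x ^ 2 + x + A`. -/

set_option autoImplicit false

namespace Pool.Agent.P.MP_8be758_nt.Par

open Finset
open ArithmeticFunction (cardFactors)

theorem tau_mul (a b : ℕ) : (a * b).divisors.card ≤ a.divisors.card * b.divisors.card := by
  rw [Nat.divisors_mul]
  exact card_mul_le

theorem exists_small_divisor {n : ℕ} (hn : n ≠ 0) :
    ∃ d, d ∣ n ∧ d ^ 2 ≤ n ∧ n.divisors.card ≤ 2 * d.divisors.card ^ 2 := by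
  obtain ⟨d, hd, hmax⟩ := exists_max_image {d ∈ n.divisors | d ^ 2 ≤ n} id
    ⟨1, by simp [hn, Nat.one_le_iff_ne_zero]⟩
  simp only [mem_filter, Nat.mem_divisors, id] at hd hmax
  obtain ⟨⟨⟨e, rfl⟩, -⟩, h2⟩ := hd
  rcases eq_or_ne e 1 with rfl | he
  · exact ⟨d, by simp, h2, by rw [mul_one]; nlinarith⟩
  have hp := Nat.minFac_prime he
  obtain ⟨k, hk⟩ := Nat.minFac_dvd e
  generalize e.minFac = p at *
  subst hk
  have d0 : 0 < d := Nat.pos_of_ne_zero (left_ne_zero_of_mul hn)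
  have h3 : d * (p * k) < (d * p) ^ 2 := not_le.1 fun h => by
    have := hmax (d * p) ⟨⟨⟨k, by ring⟩, hn⟩, h⟩
    nlinarith [hp.two_le]
  have h4 : k ≤ d * p := le_of_lt (lt_of_mul_lt_mul_left (a := d * p) (by nlinarith) (Nat.zero_le _))
  have h5 := (tau_mul d (p * k)).trans (Nat.mul_le_mul_left _ (tau_mul p k))
  rw [hp.divisors, card_pair hp.one_lt.ne] at h5
  rcases le_total d.divisors.card k.divisors.card with h | h
  · exact ⟨k, ⟨d * p, by ring⟩, by nlinarith, by nlinarith⟩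
  · exact ⟨d, dvd_mul_right _ _, h2, by nlinarith⟩

theorem sum_tau_pow (M k : ℕ) : ∑ d ∈ Icc 1 M, (d.divisors.card : ℝ) ^ k / d ≤
    (∑ d ∈ Icc 1 M, (d : ℝ)⁻¹) ^ 2 ^ k := by
  induction k with
  | zero => simp
  | succ k ih =>
    rw [pow_succ 2, pow_mul]
    refine le_trans ?_ (pow_le_pow_left₀ (by positivity) ih 2)
    rw [sq, sum_mul_sum, ← sum_product']
    refine le_trans (sum_le_sum fun d hd => ?_) (sum_fiberwise_le_sum_of_sum_fiber_nonneg
      (t := Icc 1 M) (g := fun p : ℕ × ℕ => p.1 * p.2) fun _ _ => by positivity)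
    calc (d.divisors.card : ℝ) ^ (k + 1) / d
        = ∑ p ∈ d.divisorsAntidiagonal, (d.divisors.card : ℝ) ^ k / d := by
          rw [Nat.sum_divisorsAntidiagonal fun _ _ => (d.divisors.card : ℝ) ^ k / d, sum_const,
            nsmul_eq_mul]
          ring
      _ ≤ ∑ p ∈ d.divisorsAntidiagonal, (p.1.divisors.card : ℝ) ^ k / p.1 *
          ((p.2.divisors.card : ℝ) ^ k / p.2) := sum_le_sum fun p hp => by
          rw [← (Nat.mem_divisorsAntidiagonal.1 hp).1, div_mul_div_comm, ← mul_pow, Nat.cast_mul]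
          gcongr
          exact_mod_cast tau_mul _ _
      _ ≤ _ := sum_le_sum_of_subset_of_nonneg (fun p hp => by
          obtain ⟨e, d0⟩ := Nat.mem_divisorsAntidiagonal.1 hp
          have h1 := Nat.pos_of_dvd_of_pos (Dvd.intro _ e) (Nat.pos_of_ne_zero d0)
          have h2 := Nat.pos_of_dvd_of_pos (Dvd.intro_left _ e) (Nat.pos_of_ne_zero d0)
          simp only [mem_filter, mem_product, mem_Icc] at hd ⊢
          exact ⟨⟨⟨h1, by nlinarith [hd.2]⟩, h2, by nlinarith [hd.2]⟩, e⟩) fun _ _ _ => by positivity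

variable {A : ℕ}

theorem card_roots_le (hA : 2 ≤ A) (N : ℕ) {d : ℕ} (hd : d ≠ 0) :
    {x ∈ range (N + 1) | d ∣ x ^ 2 + x + A}.card ≤ d.divisors.card * (4 * A * N / d + 1) := by
  obtain h | ⟨a, ha⟩ := {x ∈ range (N + 1) | d ∣ x ^ 2 + x + A}.eq_empty_or_nonempty
  · simp [h]
  have ha' : (d : ℤ) ∣ a ^ 2 + a + A := by exact_mod_cast (mem_filter.1 ha).2
  rw [← card_range (4 * A * N / d + 1), ← card_product]
  refine card_le_card_of_injOn (fun x => (Int.gcd d (x - a), 4 * A * x / d)) (fun x hx => ?_)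
    fun x hx y hy e => ?_
  · simp only [coe_filter, mem_range, Set.mem_ofPred_eq, coe_product, Set.mem_prod, mem_coe,
      Nat.mem_divisors] at hx ⊢
    exact ⟨⟨Int.natCast_dvd_natCast.1 (Int.gcd_dvd_left _ _), hd⟩, Nat.lt_succ_of_le
      (Nat.div_le_div_right (Nat.mul_le_mul_left _ (by omega)))⟩
  obtain ⟨e1, e2⟩ := Prod.mk.inj e
  obtain ⟨k, hk⟩ := Int.gcd_dvd_left (d : ℤ) (x - a)
  have key : ∀ x ∈ {x ∈ range (N + 1) | d ∣ x ^ 2 + x + A}, d = Int.gcd d (x - a) * k →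
      k ∣ x + a + 1 := fun x hx hk => by
    have h1 : (d : ℤ) ∣ x ^ 2 + x + A := by exact_mod_cast (mem_filter.1 hx).2
    have h2 := dvd_gcd_mul_of_dvd_mul (show (d : ℤ) ∣ (x - a) * (x + a + 1) from
      (dvd_sub h1 ha').trans (dvd_of_eq (by ring)))
    rw [← Int.coe_gcd] at h2
    nth_rewrite 1 [hk] at h2
    exact (mul_dvd_mul_iff_left (left_ne_zero_of_mul (hk ▸ Int.natCast_ne_zero.2 hd))).1 h2
  obtain ⟨s, hs⟩ := key x hx hk
  obtain ⟨t, ht⟩ := key y hy (e1 ▸ hk)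
  obtain ⟨u, hu⟩ := Int.gcd_dvd_right (d : ℤ) (x - a)
  obtain ⟨v, hv⟩ := Int.gcd_dvd_right (d : ℤ) (y - a)
  rw [← e1] at hv
  generalize (Int.gcd d (x - a) : ℤ) = g at *
  obtain ⟨c, hc⟩ := ha'
  have h3 : (d : ℤ) ∣ (4 * A - 1) * (x - y) := by
    refine ⟨4 * c * (x - y) - (2 * a + 1) * (s * (u - v) - u * (s - t)), ?_⟩
    linear_combination 4 * (x - y) * hc - (2 * a + 1) * ((x - y) * (hs - hu) + k * s * (hu - hv) -
      g * u * (hs - ht) - (s * (u - v) - u * (s - t)) * hk)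
  have h4 : ∀ x y : ℕ, 4 * A * x / d = 4 * A * y / d → (4 * A * x : ℤ) < 4 * A * y + d :=
    fun x y h => by
      have h1 := Nat.lt_mul_div_succ (4 * A * x) (Nat.pos_of_ne_zero hd)
      have h2 := Nat.mul_div_le (4 * A * y) d
      rw [h, mul_add_one] at h1
      exact_mod_cast (by omega : 4 * A * x < 4 * A * y + d)
  have h5 := h4 x y e2
  have h6 := h4 y x e2.symm
  have h7 := Int.eq_zero_of_abs_lt_dvd h3 (by
    rcases le_total (x : ℤ) y with h | h
    · rw [abs_of_nonpos (mul_nonpos_of_nonneg_of_nonpos (by omega) (by omega))]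
      linarith
    · rw [abs_of_nonneg (mul_nonneg (by omega) (by omega))]
      linarith)
  have := (mul_eq_zero.1 h7).resolve_left (by omega)
  omega

theorem second_moment (hA : 2 ≤ A) {N : ℕ} (hN : A ≤ N) :
    ∑ x ∈ range (N + 1), ((x ^ 2 + x + A).divisors.card : ℝ) ^ 2 ≤
      4 * (4 * A + 2) * N * (1 + Real.log (2 * N : ℕ)) ^ 32 := by
  calc _ ≤ ∑ x ∈ range (N + 1), ∑ d ∈ Icc 1 (2 * N) with d ∣ x ^ 2 + x + A,
        4 * (d.divisors.card : ℝ) ^ 4 := sum_le_sum fun x hx => by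
        obtain ⟨d, h1, h2, h3⟩ := exists_small_divisor (n := x ^ 2 + x + A) (by omega)
        have h4 : x ≤ N := Nat.lt_succ_iff.1 (mem_range.1 hx)
        refine le_trans ?_ (single_le_sum (a := d) (fun _ _ => by positivity) (mem_filter.2
          ⟨mem_Icc.2 ⟨Nat.pos_of_dvd_of_pos h1 (by omega), ?_⟩, h1⟩))
        · exact_mod_cast (Nat.pow_le_pow_left h3 2).trans (le_of_eq (by ring))
        · exact (Nat.pow_le_pow_iff_left two_ne_zero).1 (by nlinarith)
    _ = ∑ d ∈ Icc 1 (2 * N), ∑ x ∈ range (N + 1) with d ∣ x ^ 2 + x + A,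
        4 * (d.divisors.card : ℝ) ^ 4 := sum_comm' (by simp +contextual [and_comm, and_assoc])
    _ ≤ ∑ d ∈ Icc 1 (2 * N), 4 * (4 * A + 2) * N * ((d.divisors.card : ℝ) ^ 5 / d) :=
        sum_le_sum fun d hd => by
        obtain ⟨d1, d2⟩ := mem_Icc.1 hd
        have h1 : ({x ∈ range (N + 1) | d ∣ x ^ 2 + x + A}.card : ℝ) ≤
            d.divisors.card * ((4 * A * N / d : ℕ) + 1) := by
          exact_mod_cast card_roots_le hA N (by omega)
        have h2 : ((4 * A * N / d : ℕ) : ℝ) + 1 ≤ (4 * A + 2) * N / d := by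
          have h3 : (1 : ℝ) ≤ 2 * N / d := (one_le_div (by positivity)).2 (by exact_mod_cast d2)
          have h4 := Nat.cast_div_le (α := ℝ) (m := 4 * A * N) (n := d)
          push_cast at h4
          rw [add_mul, add_div]
          linarith
        rw [sum_const, nsmul_eq_mul]
        calc _ ≤ d.divisors.card * ((4 * A + 2) * N / d) * (4 * (d.divisors.card : ℝ) ^ 4) := by
              gcongr
              exact h1.trans (by gcongr)
          _ = _ := by ring
    _ ≤ _ := by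
        rw [← mul_sum]
        refine mul_le_mul_of_nonneg_left ((sum_tau_pow _ 5).trans ?_) (by positivity)
        refine pow_le_pow_left₀ (by positivity) ?_ _
        simpa [harmonic_eq_sum_Icc] using harmonic_le_one_add_log (2 * N)

/-- The vectors of norm `d` in the sublattice `u + r v ≡ 0 mod d`. -/
noncomputable def vecs (A N : ℕ) (r : ℤ) (d : ℕ) : Finset (ℤ × ℤ) :=
  {a ∈ Icc (-2 * N, -2 * N) (2 * N, 2 * N) | nq A a = d ∧ (d : ℤ) ∣ a.1 + r * a.2}

theorem card_vecs (hA : 2 ≤ A) (N : ℕ) (r : ℤ) {d : ℕ} (hd : d ≠ 0) : (vecs A N r d).card ≤ 2 := by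
  obtain h | ⟨a, ha⟩ := (vecs A N r d).eq_empty_or_nonempty
  · simp [h]
  refine (card_le_card fun b hb => ?_).trans (card_le_two (a := a) (b := -a))
  obtain ⟨-, a1, s, a2⟩ := mem_filter.1 ha
  obtain ⟨-, b1, t, b2⟩ := mem_filter.1 hb
  have d0 : (0 : ℤ) < d := by omega
  have h1 := nq_mul (A := A) b (cj a)
  have h2 := (sq_le_nq hA (mul A b (cj a))).2
  rw [nq_cj, a1, b1] at h1
  have h3 : det b a = 0 := Int.eq_zero_of_abs_lt_dvd (m := d)
    ⟨t * a.2 - s * b.2, by unfold det; linear_combination a.2 * b2 - b.2 * a2⟩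
    (abs_lt_of_sq_lt_sq (by rw [h1, mul_cj_snd] at h2; nlinarith) d0.le)
  rw [nq, mul_cj_snd, h3] at h1
  simp only [nq, mul, cj, det] at h1 h3 a1
  simp only [mem_insert, mem_singleton, Prod.ext_iff, Prod.fst_neg, Prod.snd_neg]
  refine (sq_eq_sq_iff_eq_or_eq_neg.1 (by linear_combination h1 :
    (b.1 * (a.1 + a.2) + A * b.2 * a.2) ^ 2 = (d : ℤ) ^ 2)).imp (fun h => ⟨?_, ?_⟩) fun h => ⟨?_, ?_⟩
  all_goals refine mul_left_cancel₀ d0.ne' ?_
  · linear_combination a.1 * h - b.1 * a1 + A * a.2 * h3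
  · linear_combination a.2 * h - b.2 * a1 - (a.1 + a.2) * h3
  · linear_combination a.1 * h - b.1 * a1 + A * a.2 * h3
  · linear_combination a.2 * h - b.2 * a1 - (a.1 + a.2) * h3

theorem exists_cover (hA : 2 ≤ A) (N : ℕ) : ∃ B : Finset (ℤ × ℤ), Covers A (√N) B ∧
    B.card ≤ 4 * ∑ x ∈ range (N + 1) with Odd (cardFactors (x ^ 2 + x + A)),
      (x ^ 2 + x + A).divisors.card := by
  refine ⟨{x ∈ range (N + 1) | Odd (cardFactors (x ^ 2 + x + A))}.biUnion fun x =>
    (x ^ 2 + x + A).divisors.biUnion fun d => vecs A N (x + 1) d ∪ vecs A N (-x) d,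
    ⟨fun b hb => ?_, fun a m ha hm na nm hd he => ?_⟩, ?_⟩
  · simp only [mem_biUnion, mem_union, vecs, mem_filter] at hb
    obtain ⟨x, -, d, hd, h⟩ := hb
    have := Nat.pos_of_mem_divisors hd
    exact ne_zero_of_nq (A := A) (by rcases h with h | h <;> rw [h.2.1] <;> omega)
  · have key : ∀ z : ℤ × ℤ, ‖io A z‖ ≤ √N → nq A z ≤ N := fun z h => by
      have := pow_le_pow_left₀ (norm_nonneg _) h 2
      rw [norm_io_sq hA, Real.sq_sqrt (Nat.cast_nonneg _)] at this
      exact_mod_cast this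
    have a1 := key a na
    have m1 := key m nm
    have a0 := nq_pos hA ha
    have m0 := nq_pos hA hm
    obtain ⟨r, hr⟩ : ∃ r, mul A a (cj m) = (r, -1) := ⟨_, Prod.ext rfl (by rw [mul_cj_snd, hd])⟩
    have h1 := nq_mul (A := A) a (cj m)
    have h2 := et_mul hA ha (cj_ne hA hm)
    rw [hr, nq_cj] at h1
    rw [hr, et_cj] at h2
    obtain ⟨x, hx⟩ : ∃ x : ℕ, r = x + 1 ∨ r = -x := by
      rcases le_total r 0 with h | h
      · exact ⟨(-r).toNat, by omega⟩
      · exact ⟨(r - 1).toNat, by omega⟩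
    have h3 : nq A (r, -1) = (x ^ 2 + x + A : ℕ) := by
      simp only [nq]
      push_cast
      rcases hx with rfl | rfl <;> ring
    obtain ⟨d, hd'⟩ := Int.eq_ofNat_of_zero_le a0.le
    have h4 : a ∈ vecs A N r d := by
      obtain ⟨b1, b2⟩ := sq_le_nq hA a
      have b3 : ∀ u : ℤ, u ^ 2 ≤ 4 * N → -2 * N ≤ u ∧ u ≤ 2 * N := fun u h => by
        constructor <;> nlinarith
      have b4 := b3 a.1 (by linarith)
      have b5 := b3 a.2 (by nlinarith)
      refine mem_filter.2 ⟨mem_Icc.2 ⟨⟨b4.1, b5.1⟩, b4.2, b5.2⟩, hd', m.2, ?_⟩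
      obtain ⟨e1, e2⟩ := Prod.mk.inj hr
      simp only [cj] at e1 e2
      rw [← hd', nq]
      linear_combination -a.2 * e1 + a.1 * e2
    simp only [mem_biUnion, mem_filter, mem_range, Nat.mem_divisors, mem_union]
    refine ⟨x, ⟨?_, ?_⟩, d, ⟨?_, by omega⟩, by rcases hx with rfl | rfl <;> simp [h4]⟩
    · have : (x : ℤ) ^ 2 ≤ N ^ 2 := by
        rw [h3] at h1
        push_cast at h1
        nlinarith [mul_le_mul a1 m1 m0.le (Int.natCast_nonneg N)]
      exact Nat.lt_succ_of_le ((Nat.pow_le_pow_iff_left two_ne_zero).1 (by exact_mod_cast this))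
    · rw [et, h3, Int.natAbs_natCast] at h2
      exact Nat.not_even_iff_odd.1 fun h => he (CharTwo.add_eq_zero.1
        (h2 ▸ (ZMod.natCast_eq_zero_iff_even.2 h)))
    · exact Int.natCast_dvd_natCast.1 ⟨_, by rw [← h3, h1, hd']⟩
  · rw [mul_sum]
    refine card_biUnion_le.trans (sum_le_sum fun x _ => (card_biUnion_le_card_mul _ _ 4
      fun d hd => ?_).trans (le_of_eq (mul_comm _ _)))
    have := (Nat.pos_of_mem_divisors hd).ne'
    exact (card_union_le _ _).trans (add_le_add (card_vecs hA N _ this) (card_vecs hA N _ this))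

end Pool.Agent.P.MP_8be758_nt.Par
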