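import Pool.Agent.P.MP_8be758_nt.Par.Basic

/-! Few changes of parity make the parity an almost-eigenfunction of small rotations. -/

set_option autoImplicit false

namespace Pool.Agent.P.MP_8be758_nt.Par

open Complex MeasureTheory Finset

/-- Rotation by `-θ`. -/
noncomputable def rot (θ : ℝ) (z : ℂ) : ℂ := z * exp (-θ * I)

/-- The cone of opening `η` around the direction `θ`. -/
def Cone (η θ : ℝ) (z : ℂ) : Prop := |(rot θ z).im| ≤ η * (rot θ z).re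

theorem norm_rot (θ : ℝ) (z : ℂ) : ‖rot θ z‖ = ‖z‖ := by
  rw [rot, norm_mul, ← ofReal_neg, norm_exp_ofReal_mul_I, mul_one]

theorem rot_add (θ s : ℝ) (z : ℂ) : rot (θ + s) z = rot θ (rot s z) := by
  simp only [rot, mul_assoc, ← exp_add]
  congr 2
  push_cast
  ring

theorem rot_mul (θ φ r : ℝ) (z : ℂ) : rot (θ + φ) (z * (r * exp (φ * I))) = r * rot θ z := by
  have : exp (φ * I) * exp (-(θ + φ : ℝ) * I) = exp (-θ * I) := by
    rw [← exp_add]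
    congr 1
    push_cast
    ring
  unfold rot
  linear_combination z * r * this

/-- The directions in `[0, 1]` close to the line through `w`. -/
def bad (w : ℂ) (δ : ℝ) : Set ℝ := {θ | θ ∈ Set.Icc (0 : ℝ) 1 ∧ |(rot θ w).im| ≤ δ * ‖w‖}

theorem vol_bad {w : ℂ} (hw : w ≠ 0) (δ : ℝ) : volume (bad w δ) ≤ ENNReal.ofReal (4 * δ) := by
  refine (Real.volume_le_diam _).trans (Metric.ediam_le fun θ ⟨h1, h2⟩ θ' ⟨h1', h2'⟩ => ?_)
  rw [edist_dist, Real.dist_eq]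
  refine ENNReal.ofReal_le_ofReal ?_
  have hw' : 0 < ‖w‖ := norm_pos_iff.2 hw
  have hδ : 0 ≤ δ := nonneg_of_mul_nonneg_left ((abs_nonneg _).trans h2) hw'
  have e : rot θ' w = rot θ w * exp ((θ - θ' : ℝ) * I) := by
    simp only [rot, mul_assoc, ← exp_add]
    congr 2
    push_cast
    ring
  have e1 : (rot θ' w).im * (rot θ w).re - (rot θ' w).re * (rot θ w).im =
      ‖w‖ ^ 2 * Real.sin (θ - θ') := by
    rw [e, ← norm_rot θ w, Complex.sq_norm, normSq_apply, mul_im, mul_re, exp_ofReal_mul_I_re,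
      exp_ofReal_mul_I_im]
    ring
  have r1 : |(rot θ w).re| ≤ ‖w‖ := norm_rot θ w ▸ abs_re_le_norm _
  have r2 : |(rot θ' w).re| ≤ ‖w‖ := norm_rot θ' w ▸ abs_re_le_norm _
  have e2 : ‖w‖ ^ 2 * |Real.sin (θ - θ')| ≤ ‖w‖ ^ 2 * (2 * δ) := by
    rw [← abs_of_pos (pow_pos hw' 2), ← abs_mul, ← e1, abs_of_pos (pow_pos hw' 2)]
    refine (abs_sub _ _).trans ?_
    rw [abs_mul, abs_mul]
    have := mul_le_mul h2' r1 (abs_nonneg _) (by positivity)
    have := mul_le_mul r2 h2 (abs_nonneg _) (by positivity)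
    nlinarith
  have e3 := le_of_mul_le_mul_left e2 (pow_pos hw' 2)
  have e4 := Real.mul_abs_le_abs_sin (x := θ - θ') (by
    rw [abs_le]
    constructor <;> linarith [h1.1, h1.2, h1'.1, h1'.2, Real.pi_gt_three])
  have e5 : |θ - θ'| ≤ Real.pi * δ := by
    rw [div_mul_eq_mul_div, div_le_iff₀ Real.pi_pos] at e4
    nlinarith [Real.pi_pos]
  nlinarith [Real.pi_le_four]

variable {A : ℕ}

/-- Some short vector lies in the cone. -/
def Approx (A : ℕ) (η ρ θ : ℝ) : Prop := ∃ z : ℤ × ℤ, z ≠ 0 ∧ ‖io A z‖ ≤ ρ ∧ Cone η θ (io A z)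

/-- All short vectors of the cone have the same parity. -/
def Same (A : ℕ) (η ρ θ : ℝ) : Prop := ∀ z w : ℤ × ℤ, z ≠ 0 → w ≠ 0 → ‖io A z‖ ≤ ρ → ‖io A w‖ ≤ ρ →
  Cone η θ (io A z) → Cone η θ (io A w) → et A z = et A w

/-- `B` contains an end of every short Farey edge with a change of parity. -/
def Covers (A : ℕ) (ρ : ℝ) (B : Finset (ℤ × ℤ)) : Prop :=
  (∀ b ∈ B, b ≠ 0) ∧ ∀ a m : ℤ × ℤ, a ≠ 0 → m ≠ 0 → ‖io A a‖ ≤ ρ → ‖io A m‖ ≤ ρ → det a m = 1 →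
    et A a ≠ et A m → a ∈ B

theorem same_of (hA : 2 ≤ A) {η ρ θ : ℝ} (hη : 0 ≤ η) {B : Finset (ℤ × ℤ)} (hB : Covers A ρ B)
    (h : ∀ b ∈ B, ¬|(rot θ (io A b)).im| ≤ η * ‖io A b‖) : Same A η ρ θ := by
  have key : ∀ z w : ℤ × ℤ, z ≠ 0 → w ≠ 0 → ‖io A z‖ ≤ ρ → ‖io A w‖ ≤ ρ →
      Cone η θ (io A z) → Cone η θ (io A w) → 0 ≤ det z w → et A z = et A w := by
    intro z w hz hw nz nw cz cw hd
    by_contra he
    obtain ⟨a, m, ha, hm, pa, pm, d, e⟩ := exists_edge hA (fun z => ‖io A z‖ ≤ ρ ∧ Cone η θ (io A z))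
      (fun z w v D s t hD hs ht hst e pz pw => by
        have e1 := congrArg (io A) e
        rw [io_add, io_smul, io_smul, io_smul] at e1
        have hD' : (0 : ℝ) < D := by exact_mod_cast hD
        have hs' : (0 : ℝ) ≤ s := by exact_mod_cast hs
        have ht' : (0 : ℝ) ≤ t := by exact_mod_cast ht
        have hst' : (s : ℝ) + t ≤ D := by exact_mod_cast hst
        have hρ : 0 ≤ ρ := (norm_nonneg _).trans pz.1
        refine ⟨le_of_mul_le_mul_left ?_ hD', le_of_mul_le_mul_left ?_ hD'⟩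
        · have h1 := norm_add_le (s * io A z) (t * io A w)
          rw [← e1] at h1
          simp only [norm_mul, norm_intCast, abs_of_nonneg hs', abs_of_nonneg ht',
            abs_of_pos hD'] at h1
          nlinarith [mul_le_mul_of_nonneg_left pz.1 hs', mul_le_mul_of_nonneg_left pw.1 ht']
        · have e2 : (D : ℝ) * rot θ (io A v) = (s : ℝ) * rot θ (io A z) + (t : ℝ) * rot θ (io A w) := by
            unfold rot
            push_cast
            linear_combination exp (-θ * I) * e1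
          have e3 := congrArg re e2
          have e4 := congrArg im e2
          simp only [re_ofReal_mul, im_ofReal_mul, add_re, add_im] at e3 e4
          rw [← abs_of_pos hD', ← abs_mul, e4, abs_of_pos hD', mul_left_comm, e3]
          refine (abs_add_le _ _).trans ?_
          rw [abs_mul, abs_mul, abs_of_nonneg hs', abs_of_nonneg ht']
          nlinarith [mul_le_mul_of_nonneg_left pz.2 hs', mul_le_mul_of_nonneg_left pw.2 ht'])
      (det z w).toNat z w hz hw ⟨nz, cz⟩ ⟨nw, cw⟩ (by omega) he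
    refine h a (hB.2 a m ha hm pa.1 pm.1 d e) (le_trans pa.2 (mul_le_mul_of_nonneg_left ?_ hη))
    exact norm_rot θ (io A a) ▸ re_le_norm _
  intro z w hz hw nz nw cz cw
  rcases le_total 0 (det z w) with hd | hd
  · exact key z w hz hw nz nw cz cw hd
  · exact (key w z hw hz nw nz cw cz (by unfold det at hd ⊢; linarith)).symm

theorem dirichlet {a b : ℝ} (hab : |a| ≤ |b|) {Q : ℕ} (hQ : 0 < Q) :
    ∃ k j : ℤ, k ≠ 0 ∧ |k| ≤ Q ∧ |j| ≤ Q ∧ |k * a + j * b| ≤ |b| / Q := by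
  rcases eq_or_ne b 0 with rfl | hb
  · exact ⟨1, 0, one_ne_zero, by simpa using Nat.succ_le_of_lt hQ, by simp, by simpa using hab⟩
  have hb' := abs_pos.2 hb
  obtain ⟨j, k, k0, kQ, h⟩ := Real.exists_int_int_abs_mul_sub_le (a / b) hQ
  have hQ' : (0 : ℝ) < Q := by exact_mod_cast hQ
  have h1 : |a / b| ≤ 1 := by rwa [abs_div, div_le_one hb']
  have h2 : 1 / ((Q : ℝ) + 1) < 1 := by rw [div_lt_one] <;> linarith
  refine ⟨k, -j, k0.ne', by rwa [abs_of_pos k0], ?_, ?_⟩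
  · have h3 : |(k : ℝ) * (a / b)| ≤ Q := by
      rw [abs_mul, abs_of_pos (by exact_mod_cast k0)]
      exact (mul_le_of_le_one_right (by exact_mod_cast k0.le) h1).trans (by exact_mod_cast kQ)
    have h4 : |(j : ℝ)| < Q + 1 := by
      rw [abs_le] at h h3
      rw [abs_lt]
      constructor <;> linarith
    rw [abs_neg]
    exact Int.lt_add_one_iff.1 (by exact_mod_cast h4)
  · rw [show (k : ℝ) * a + (-j : ℤ) * b = b * (k * (a / b) - j) by push_cast; field_simp; ring,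
      abs_mul, div_eq_mul_one_div |b|]
    exact mul_le_mul_of_nonneg_left (h.trans (one_div_le_one_div_of_le hQ' (by linarith))) hb'.le

theorem exists_close (hA : 2 ≤ A) (θ : ℝ) {Q : ℕ} (hQ : 0 < Q) : ∃ z : ℤ × ℤ, z ≠ 0 ∧
    |z.1| ≤ Q ∧ |z.2| ≤ Q ∧ |(rot θ (io A z)).im| ≤ (A + 1) / Q := by
  have e : ∀ z : ℤ × ℤ, (rot θ (io A z)).im = z.1 * (rot θ 1).im + z.2 * (rot θ (om A)).im :=
    fun z => by
      rw [show rot θ (io A z) = (z.1 : ℝ) * rot θ 1 + (z.2 : ℝ) * rot θ (om A) by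
        unfold rot io; push_cast; ring, add_im, im_ofReal_mul, im_ofReal_mul]
  have h1 : |(rot θ 1).im| ≤ A + 1 := (abs_im_le_norm _).trans (by rw [norm_rot]; simp)
  have h2 : |(rot θ (om A)).im| ≤ A + 1 := (abs_im_le_norm _).trans (by
    rw [norm_rot]; linarith [norm_om_le hA])
  rcases le_total |(rot θ 1).im| |(rot θ (om A)).im| with h | h
  · obtain ⟨k, j, k0, a, b, c⟩ := dirichlet h hQ
    exact ⟨(k, j), fun h => k0 (congrArg Prod.fst h), a, b, by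
      rw [e]; exact c.trans (by gcongr)⟩
  · obtain ⟨k, j, k0, a, b, c⟩ := dirichlet h hQ
    exact ⟨(j, k), fun h => k0 (congrArg Prod.snd h), b, a, by
      rw [e, add_comm]; exact c.trans (by gcongr)⟩

theorem approx_of {η ρ θ : ℝ} (hη : 0 ≤ η) (hη1 : η ≤ 1) {z : ℤ × ℤ} (hz : z ≠ 0)
    (h1 : ‖io A z‖ ≤ ρ) (h2 : |(rot θ (io A z)).im| ≤ η / 2 * ‖io A z‖) : Approx A η ρ θ := by
  have h3 : ‖io A z‖ / 2 ≤ |(rot θ (io A z)).re| := by
    refine abs_le_of_sq_le_sq' ?_ (abs_nonneg _) |>.2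
    have e : ‖io A z‖ ^ 2 = (rot θ (io A z)).re ^ 2 + (rot θ (io A z)).im ^ 2 := by
      rw [← norm_rot θ, Complex.sq_norm, normSq_apply]
      ring
    have h4 : |(rot θ (io A z)).im| ≤ ‖io A z‖ / 2 := by nlinarith [norm_nonneg (io A z)]
    have h5 := pow_le_pow_left₀ (abs_nonneg _) h4 2
    rw [sq_abs] at h5 ⊢
    nlinarith
  have h4 : |(rot θ (io A z)).im| ≤ η * |(rot θ (io A z)).re| := by nlinarith
  rcases le_total 0 (rot θ (io A z)).re with h | h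
  · exact ⟨z, hz, h1, by rwa [abs_of_nonneg h] at h4⟩
  · refine ⟨-z, neg_ne_zero.2 hz, by rwa [io_neg, norm_neg], ?_⟩
    rw [Cone, io_neg, show rot θ (-io A z) = -rot θ (io A z) from neg_mul _ _, neg_im, abs_neg, neg_re]
    rwa [abs_of_nonpos h] at h4

/-- The directions where something goes wrong. -/
def NotGood (A : ℕ) (η ρ₁ ρ s : ℝ) : Set ℝ :=
  {θ | θ ∈ Set.Icc (0 : ℝ) 1 ∧ ¬(Approx A η ρ₁ (θ + s) ∧ Same A (3 * η) ρ (θ + s))}

theorem vol_notGood (hA : 2 ≤ A) {η ρ q : ℝ} (hη : 0 ≤ η) (hη1 : η ≤ 1) {B : Finset (ℤ × ℤ)}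
    (hB : Covers A ρ B) {Q : ℕ} (hQ : 0 < Q) (hq : 0 ≤ q) (hqQ : 4 * (A + 1) ≤ q * Q * η) (s : ℝ) :
    volume (NotGood A η ((A + 1) * Q) ρ s) ≤
      ENNReal.ofReal (12 * η * B.card + 64 * (A + 1) * q / Q) := by
  have hQ' : (0 : ℝ) < Q := by exact_mod_cast hQ
  have hio : ∀ z : ℤ × ℤ, z ≠ 0 → rot s (io A z) ≠ 0 := fun z hz =>
    norm_pos_iff.1 (by rw [norm_rot]; linarith [one_le_norm_io hA hz])
  have hsub : NotGood A η ((A + 1) * Q) ρ s ⊆ (⋃ b ∈ B, bad (rot s (io A b)) (3 * η)) ∪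
      ⋃ n ∈ Icc 1 ⌊q⌋₊, ⋃ z ∈ (box n : Finset (ℤ × ℤ)),
        bad (rot s (io A z)) (2 * (A + 1) / (Q * n)) := by
    rintro θ ⟨h0, h⟩
    by_contra hc
    simp only [Set.mem_union, Set.mem_iUnion, not_or, not_exists, bad, Set.mem_ofPred_eq, h0,
      true_and, norm_rot, ← rot_add] at hc
    refine h ⟨?_, same_of hA (by positivity) hB hc.1⟩
    obtain ⟨z, hz, a, b, c⟩ := exists_close hA (θ + s) hQ
    have hm := max_le_norm_io hA z
    have hn : 1 ≤ max z.1.natAbs z.2.natAbs := by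
      by_contra h
      exact hz (Prod.ext (by simp only [Prod.fst_zero]; omega) (by simp only [Prod.snd_zero]; omega))
    refine approx_of hη hη1 hz (norm_io_le hA (by exact_mod_cast a) (by exact_mod_cast b))
      (c.trans ?_)
    by_cases hle : max z.1.natAbs z.2.natAbs ≤ ⌊q⌋₊
    · refine absurd (c.trans ?_) (hc.2 _ (mem_Icc.2 ⟨hn, hle⟩) z (Int.mem_box.2 rfl))
      generalize max z.1.natAbs z.2.natAbs = n at *
      have hn' : (0 : ℝ) < n := by exact_mod_cast hn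
      rw [div_mul_eq_mul_div, div_le_div_iff₀ hQ' (by positivity)]
      have : (0 : ℝ) ≤ (A + 1) * Q := by positivity
      nlinarith
    · have h1 : q ≤ 2 * ‖io A z‖ := (Nat.lt_of_floor_lt (not_le.1 hle)).le.trans hm
      rw [div_le_iff₀ hQ']
      nlinarith [mul_le_mul_of_nonneg_right h1 (mul_nonneg hQ'.le hη)]
  refine (measure_mono hsub).trans ((measure_union_le _ _).trans ?_)
  rw [ENNReal.ofReal_add (by positivity) (by positivity)]
  refine add_le_add ((measure_biUnion_finset_le _ _).trans ?_)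
    ((measure_biUnion_finset_le _ _).trans ?_)
  · refine (sum_le_card_nsmul _ _ _ fun b hb => vol_bad (hio b (hB.1 b hb)) _).trans (le_of_eq ?_)
    rw [nsmul_eq_mul, ← ENNReal.ofReal_natCast, ← ENNReal.ofReal_mul (by positivity)]
    congr 1
    ring
  · refine (sum_le_card_nsmul _ _ (ENNReal.ofReal (64 * (A + 1) / Q)) fun n hn => ?_).trans ?_
    · have hn1 := (mem_Icc.1 hn).1
      refine (measure_biUnion_finset_le _ _).trans ((sum_le_card_nsmul _ _ _ fun z hz =>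
        vol_bad (hio z ?_) _).trans (le_of_eq ?_))
      · rintro rfl
        simp at hz
        omega
      · rw [nsmul_eq_mul, ← ENNReal.ofReal_natCast, ← ENNReal.ofReal_mul (by positivity),
          Int.card_box (by omega)]
        congr 1
        have : (n : ℝ) ≠ 0 := by positivity
        push_cast
        field_simp
        ring
    · rw [nsmul_eq_mul, ← ENNReal.ofReal_natCast, ← ENNReal.ofReal_mul (by positivity)]
      refine ENNReal.ofReal_le_ofReal ?_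
      rw [Nat.card_Icc, Nat.add_sub_cancel, mul_comm, div_mul_eq_mul_div]
      gcongr
      exact Nat.floor_le hq

/-- A letter: a short non-zero vector with argument `φ`. -/
def Letter (A : ℕ) (ρ : ℝ) (a : ℤ × ℤ) (φ : ℝ) : Prop :=
  a ≠ 0 ∧ ‖io A a‖ ≤ ρ ∧ ∃ r : ℝ, 0 < r ∧ io A a = r * exp (φ * I)

theorem chain (hA : 2 ≤ A) {η ρ₁ ρ₂ ρ : ℝ} (h2 : 1 ≤ ρ₂) (hρ : ρ₁ * ρ₂ ≤ ρ)
    {ε : ENNReal} (hε : ∀ s, volume (NotGood A η ρ₁ ρ s) ≤ ε) {ι : Type} [DecidableEq ι]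
    (a : ι → ℤ × ℤ) (φ : ι → ℝ) (s : Finset ι) : (∀ i ∈ s, Letter A ρ₂ (a i) (φ i)) →
    ∃ E : Set ℝ, volume E ≤ s.card * ε ∧ ∀ θ ∈ Set.Icc (0 : ℝ) 1, θ ∉ E →
      ∀ z : ℤ × ℤ, z ≠ 0 → ‖io A z‖ ≤ ρ₁ → Cone η θ (io A z) → ∃ w : ℤ × ℤ, w ≠ 0 ∧ ‖io A w‖ ≤ ρ₁ ∧
        Cone η (θ + ∑ i ∈ s, φ i) (io A w) ∧ et A w = et A z + ∑ i ∈ s, et A (a i) := by
  induction s using Finset.induction_on with
  | empty => exact fun _ => ⟨∅, by simp, fun θ _ _ z hz h1 h2 => ⟨z, hz, h1, by simpa, by simp⟩⟩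
  | insert i s hi ih =>
    intro h
    obtain ⟨E, hE, H⟩ := ih fun j hj => h j (mem_insert_of_mem hj)
    obtain ⟨ha, na, r, hr, e⟩ := h i (mem_insert_self _ _)
    refine ⟨E ∪ NotGood A η ρ₁ ρ (∑ j ∈ insert i s, φ j), ?_, fun θ h0 hθ z hz h1 h3 => ?_⟩
    · rw [card_insert_of_notMem hi, Nat.cast_succ, add_mul, one_mul]
      exact (measure_union_le _ _).trans (add_le_add hE (hε _))
    obtain ⟨w, hw, w1, w2, w3⟩ := H θ h0 (fun h => hθ (.inl h)) z hz h1 h3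
    obtain ⟨⟨v, hv, v1, v2⟩, hs⟩ := not_not.1 fun h => hθ (.inr ⟨h0, h⟩)
    have mono : ∀ (θ : ℝ) (z : ℂ), Cone η θ z → Cone (3 * η) θ z := fun θ z h => by
      unfold Cone at h ⊢
      linarith [abs_nonneg (rot θ z).im]
    have hρ₁ : 0 ≤ ρ₁ := (norm_nonneg _).trans h1
    refine ⟨v, hv, v1, v2, ?_⟩
    rw [hs v (mul A w (a i)) hv (mul_ne hA hw ha) (v1.trans (by nlinarith)) ?_ (mono _ _ v2)
      (mono _ _ ?_), et_mul hA hw ha, w3, sum_insert hi]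
    · ring
    · rw [io_mul hA, norm_mul]
      exact (mul_le_mul w1 na (norm_nonneg _) hρ₁).trans hρ
    · rw [Cone, io_mul hA, e, sum_insert hi, add_comm (φ i), ← add_assoc, rot_mul, re_ofReal_mul,
        im_ofReal_mul, abs_mul, abs_of_pos hr, mul_left_comm]
      exact mul_le_mul_of_nonneg_left w2 hr.le

theorem cone_shift {η θ τ : ℝ} (hη : 0 < η) (hη1 : η ≤ 1 / 4) (hτ : |τ| ≤ η) {z : ℂ}
    (h : Cone η (θ + τ) z) : Cone (3 * η) θ z := by
  have e : rot θ z = rot (θ + τ) z * exp (τ * I) := by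
    simp only [rot, mul_assoc, ← exp_add]
    congr 2
    push_cast
    ring
  unfold Cone at h ⊢
  rw [e, mul_re, mul_im, exp_ofReal_mul_I_re, exp_ofReal_mul_I_im]
  generalize (rot (θ + τ) z).re = x at *
  generalize (rot (θ + τ) z).im = y at *
  have hx : 0 ≤ x := nonneg_of_mul_nonneg_right ((abs_nonneg _).trans h) hη
  have s1 : |Real.sin τ| ≤ η := Real.abs_sin_le_abs.trans hτ
  have c1 : |Real.cos τ| ≤ 1 := Real.abs_cos_le_one τ
  have c2 : 1 - τ ^ 2 / 2 ≤ Real.cos τ := Real.one_sub_sq_div_two_le_cos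
  have t2 : τ ^ 2 ≤ η ^ 2 := sq_le_sq' (abs_le.1 hτ).1 (abs_le.1 hτ).2
  have a1 : |x * Real.sin τ + y * Real.cos τ| ≤ 2 * η * x := by
    refine (abs_add_le _ _).trans ?_
    rw [abs_mul, abs_mul, abs_of_nonneg hx]
    nlinarith [mul_le_mul_of_nonneg_left s1 hx, mul_le_mul h c1 (abs_nonneg _) (by positivity)]
  have a2 : y * Real.sin τ ≤ η * x * η := (le_abs_self _).trans (by
    rw [abs_mul]
    exact mul_le_mul h s1 (abs_nonneg _) (by positivity))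
  have a3 : 2 / 3 * x ≤ x * Real.cos τ - y * Real.sin τ := by
    have : η ^ 2 ≤ 1 / 16 := by nlinarith
    nlinarith [mul_le_mul_of_nonneg_left c2 hx, mul_le_mul_of_nonneg_left t2 hx,
      mul_le_mul_of_nonneg_left this hx]
  nlinarith

theorem word_even (hA : 2 ≤ A) {η ρ₁ ρ₂ ρ ε : ℝ} (hη : 0 < η) (hη1 : η ≤ 1 / 4) (h2 : 1 ≤ ρ₂)
    (hρ : ρ₁ * ρ₂ ≤ ρ) (hε0 : 0 ≤ ε) (hε : ∀ s, volume (NotGood A η ρ₁ ρ s) ≤ ENNReal.ofReal ε)
    {ι : Type} [DecidableEq ι] (a : ι → ℤ × ℤ) (φ : ι → ℝ) (s : Finset ι)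
    (h : ∀ i ∈ s, Letter A ρ₂ (a i) (φ i)) (hτ : |∑ i ∈ s, φ i| ≤ η) (hs : (s.card + 1) * ε < 1) :
    ∑ i ∈ s, et A (a i) = 0 := by
  obtain ⟨E, hE, H⟩ := chain hA h2 hρ hε a φ s h
  obtain ⟨θ, h0, hθ⟩ : ∃ θ ∈ Set.Icc (0 : ℝ) 1, θ ∉ E ∪ NotGood A η ρ₁ ρ 0 := by
    by_contra hc
    have h1 : Set.Icc (0 : ℝ) 1 ⊆ E ∪ NotGood A η ρ₁ ρ 0 := fun θ hθ =>
      not_not.1 fun h => hc ⟨θ, hθ, h⟩
    have h3 := (measure_mono (μ := volume) h1).trans
      ((measure_union_le _ _).trans (add_le_add hE (hε 0)))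
    rw [Real.volume_Icc, ← ENNReal.ofReal_natCast, ← ENNReal.ofReal_mul (by positivity),
      ← ENNReal.ofReal_add (by positivity) hε0, ENNReal.ofReal_le_ofReal_iff (by positivity)] at h3
    linarith
  obtain ⟨⟨z, hz, z1, z2⟩, hsame⟩ := not_not.1 fun h => hθ (.inr ⟨h0, h⟩)
  rw [add_zero] at z2 hsame
  obtain ⟨w, hw, w1, w2, w3⟩ := H θ h0 (fun h => hθ (.inl h)) z hz z1 z2
  have hρ₁ : ρ₁ ≤ ρ := by nlinarith [(norm_nonneg _).trans z1]
  rw [hsame w z hw hz (w1.trans hρ₁) (z1.trans hρ₁) (cone_shift hη hη1 hτ w2)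
    (cone_shift (τ := 0) hη hη1 (by simpa using hη.le) (by rwa [add_zero]))] at w3
  exact left_eq_add.1 w3

/-- A short odd word of tiny total angle forces many changes of parity. -/
theorem geo (hA : 2 ≤ A) {N : ℕ} {B : Finset (ℤ × ℤ)} (hB : Covers A (√N) B) {ρ₂ : ℝ} (h2 : 1 ≤ ρ₂)
    {ι : Type} [DecidableEq ι] (a : ι → ℤ × ℤ) (φ : ι → ℝ) (s : Finset ι)
    (h : ∀ i ∈ s, Letter A ρ₂ (a i) (φ i)) (hτ : |∑ i ∈ s, φ i| * N ≤ 2 * s.card)
    (hodd : ∑ i ∈ s, et A (a i) ≠ 0) :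
    (N : ℝ) ≤ 2 ^ 16 * (A + 1) ^ 4 * ρ₂ ^ 2 * (s.card + 1) ^ 2 * (B.card + 1) := by
  obtain ⟨κ, hκ⟩ : ∃ κ : ℝ, κ = A + 1 := ⟨_, rfl⟩
  obtain ⟨n, hn⟩ : ∃ n : ℝ, n = s.card + 1 := ⟨_, rfl⟩
  have κ1 : 1 ≤ κ := by rw [hκ]; linarith [Nat.cast_nonneg (α := ℝ) A]
  have n1 : 1 ≤ n := by rw [hn]; linarith [Nat.cast_nonneg (α := ℝ) s.card]
  have b0 : (0 : ℝ) ≤ B.card := Nat.cast_nonneg _
  obtain ⟨Q, hQ⟩ : ∃ Q, Q = ⌊√N / (κ * ρ₂)⌋₊ := ⟨_, rfl⟩
  have hκρ : 0 < κ * ρ₂ := by positivity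
  have Q1 : κ * Q * ρ₂ ≤ √N := by
    have := hQ ▸ Nat.floor_le (a := √N / (κ * ρ₂)) (by positivity)
    rw [le_div_iff₀ hκρ] at this
    linarith
  have Q2 : √N ≤ κ * ρ₂ * (Q + 1) := by
    have := hQ ▸ Nat.lt_floor_add_one (√N / (κ * ρ₂))
    rw [div_lt_iff₀ hκρ] at this
    linarith
  have hN : √N ^ 2 = (N : ℝ) := Real.sq_sqrt (Nat.cast_nonneg _)
  have Q3 : (Q : ℝ) ^ 2 ≤ N := by
    rw [← hN]
    refine pow_le_pow_left₀ (Nat.cast_nonneg _) (le_trans ?_ Q1) 2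
    nlinarith [mul_le_mul_of_nonneg_left (one_le_mul_of_one_le_of_one_le κ1 h2)
      (Nat.cast_nonneg (α := ℝ) Q)]
  have key : (Q : ℝ) ^ 2 ≤ 2 ^ 14 * κ ^ 2 * n ^ 2 * (B.card + 1) := by
    by_contra hc
    rw [not_le] at hc
    have p1 : 0 < κ ^ 2 * n := by positivity
    have p2 : κ ^ 2 * n ≤ κ ^ 2 * n ^ 2 := by nlinarith
    have p3 : 0 ≤ κ ^ 2 * n ^ 2 * B.card := by positivity
    have hQ0 : (0 : ℝ) < Q := by
      by_contra h
      have : (Q : ℝ) = 0 := le_antisymm (not_lt.1 h) (Nat.cast_nonneg _)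
      rw [this] at hc
      nlinarith
    have hQ2 : (0 : ℝ) < Q ^ 2 := by positivity
    have hη1 : 512 * κ ^ 2 * n / Q ^ 2 ≤ 1 / 4 := by
      rw [div_le_iff₀ hQ2]
      nlinarith
    refine hodd (word_even hA (η := 512 * κ ^ 2 * n / Q ^ 2) (ρ₁ := κ * Q) (by positivity) hη1 h2 Q1
      (ε := 12 * (512 * κ ^ 2 * n / Q ^ 2) * B.card + 64 * κ * (Q / (128 * κ * n)) / Q)
      (by positivity) (fun s => ?_) a φ s h ?_ ?_)
    · rw [hκ]
      refine vol_notGood hA (by positivity) (by rw [← hκ]; linarith) hB (by exact_mod_cast hQ0)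
        (by positivity) (le_of_eq ?_) s
      field_simp
      ring
    · rw [le_div_iff₀ hQ2]
      have := mul_le_mul_of_nonneg_left Q3 (abs_nonneg (∑ i ∈ s, φ i))
      have := mul_le_mul_of_nonneg_right (one_le_pow₀ κ1 : 1 ≤ κ ^ 2) (zero_le_one.trans n1)
      linarith
    · rw [← hn, show n * (12 * (512 * κ ^ 2 * n / Q ^ 2) * B.card +
        64 * κ * (Q / (128 * κ * n)) / Q) = 6144 * (κ ^ 2 * n ^ 2 * B.card) / Q ^ 2 + 1 / 2 by
          field_simp; ring]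
      have : 6144 * (κ ^ 2 * n ^ 2 * B.card) / Q ^ 2 < 1 / 2 := by
        rw [div_lt_iff₀ hQ2]
        nlinarith
      linarith
  rw [← hκ, ← hn, ← hN]
  have p1 : 1 ≤ κ ^ 2 * n ^ 2 * (B.card + 1) := one_le_mul_of_one_le_of_one_le
    (one_le_mul_of_one_le_of_one_le (one_le_pow₀ κ1) (one_le_pow₀ n1)) (by linarith)
  calc √N ^ 2 ≤ (κ * ρ₂ * (Q + 1)) ^ 2 := pow_le_pow_left₀ (Real.sqrt_nonneg _) Q2 2
    _ = (κ * ρ₂) ^ 2 * (Q + 1) ^ 2 := by ring
    _ ≤ (κ * ρ₂) ^ 2 * (2 ^ 16 * (κ ^ 2 * n ^ 2 * (B.card + 1))) := by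
      refine mul_le_mul_of_nonneg_left ?_ (by positivity)
      nlinarith [sq_nonneg ((Q : ℝ) - 1)]
    _ = _ := by ring

end Pool.Agent.P.MP_8be758_nt.Par
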