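import Pool.Agent.P.MP_8be758_nt.Par.Basic

/-! Some norm has an odd number of prime factors. -/

set_option autoImplicit false

namespace Pool.Agent.P.MP_8be758_nt.Par

open Finset

theorem sq_lt_of_range {m : ℕ} (hm : ¬IsSquare m) {x y : ℕ} (hx : x ∈ range (m.sqrt + 1))
    (hy : y ∈ range (m.sqrt + 1)) : ((x : ℤ) - y) ^ 2 < m := by
  have h4 : ((m.sqrt : ℤ)) ^ 2 < m := by
    rw [sq]
    exact_mod_cast lt_of_le_of_ne (Nat.sqrt_le m) fun h => hm ⟨_, h.symm⟩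
  rw [mem_range] at hx hy
  exact lt_of_le_of_lt (sq_le_sq' (by omega) (by omega)) h4

theorem not_isSquare {m : ℕ} (hm : m % 4 = 3) : ¬IsSquare m := by
  rintro ⟨s, rfl⟩
  have : s % 4 < 4 := Nat.mod_lt _ four_pos
  rw [Nat.mul_mod] at hm
  interval_cases s % 4 <;> simp at hm

theorem exists_rep {n : ℕ} (hn : n % 4 = 3) :
    ∃ p : ℕ, p.Prime ∧ ∃ X Y Z : ℤ, Z ≠ 0 ∧ X ^ 2 + n * Y ^ 2 = p * Z ^ 2 := by
  obtain ⟨p, hp, -, h⟩ := Nat.exists_prime_gt_modEq_one (k := 4 * n) 0 (by omega)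
  have p4 : p % 4 = 1 := h.of_mul_right n
  have pn : p ≡ 1 [MOD n] := h.of_mul_left 4
  have := Fact.mk hp
  obtain ⟨r, hr⟩ := ZMod.isSquare_of_jacobiSym_eq_one (a := -n) (p := p) (by
    rw [neg_eq_neg_one_mul, jacobiSym.mul_left, jacobiSym.at_neg_one (Nat.odd_iff.2 (by omega)),
      ZMod.χ₄_nat_one_mod_four p4, ← jacobiSym.quadratic_reciprocity_one_mod_four p4
        (Nat.odd_iff.2 (by omega)), jacobiSym.mod_left' (a₂ := 1) (Int.natCast_modEq_iff.2 pn),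
      jacobiSym.one_left, one_mul])
  obtain ⟨r, rfl⟩ := ZMod.intCast_surjective r
  obtain ⟨k₂, hr⟩ := (ZMod.intCast_eq_intCast_iff_dvd_sub (-n) (r * r) p).1 (by simpa using hr)
  obtain ⟨k₁, hs⟩ := pn.symm.dvd
  have : NeZero n := ⟨by omega⟩
  obtain ⟨⟨x, y, z⟩, hx, ⟨x', y', z'⟩, hx', hne, he⟩ := exists_ne_map_eq_of_card_lt_of_maps_to
    (s := range ((n * p).sqrt + 1) ×ˢ range (p.sqrt + 1) ×ˢ range (n.sqrt + 1))
    (t := (univ : Finset (ZMod p × ZMod n))) (f := fun q : ℕ × ℕ × ℕ =>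
      (((q.1 - r * q.2.1 : ℤ) : ZMod p), ((q.1 - q.2.2 : ℤ) : ZMod n))) (by
      simp only [card_univ, Fintype.card_prod, ZMod.card, card_product, card_range]
      refine lt_of_mul_self_lt_mul_self₀ (Nat.zero_le _) ?_
      calc p * n * (p * n) = n * p * (p * n) := by ring
        _ < _ := Nat.mul_lt_mul'' (Nat.lt_succ_sqrt (n * p))
          (Nat.mul_lt_mul'' (Nat.lt_succ_sqrt p) (Nat.lt_succ_sqrt n))
        _ = _ := by simp only [Nat.succ_eq_add_one]; ring) fun _ _ => mem_univ _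
  simp only [mem_product] at hx hx'
  have b1 := sq_lt_of_range (not_isSquare (by rw [Nat.mul_mod, hn, p4])) hx.1 hx'.1
  have b2 := sq_lt_of_range hp.not_isSquare hx.2.1 hx'.2.1
  have b3 := sq_lt_of_range (not_isSquare hn) hx.2.2 hx'.2.2
  obtain ⟨l₁, d1⟩ := (ZMod.intCast_eq_intCast_iff_dvd_sub _ _ _).1 (congrArg Prod.fst he).symm
  obtain ⟨l₂, d2⟩ := (ZMod.intCast_eq_intCast_iff_dvd_sub _ _ _).1 (congrArg Prod.snd he).symm
  have hne' : ¬((x : ℤ) - x' = 0 ∧ (y : ℤ) - y' = 0 ∧ (z : ℤ) - z' = 0) := fun h =>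
    hne (by rw [show x = x' by omega, show y = y' by omega, show z = z' by omega])
  have d1' : ((x : ℤ) - x') - r * (y - y') = p * l₁ := by linear_combination d1
  have d2' : ((x : ℤ) - x') - (z - z') = n * l₂ := by linear_combination d2
  generalize (x : ℤ) - x' = X at *
  generalize (y : ℤ) - y' = Y at *
  generalize (z : ℤ) - z' = Z at *
  obtain ⟨k, hk⟩ : (n : ℤ) * p ∣ X ^ 2 + n * Y ^ 2 - p * Z ^ 2 :=
    IsCoprime.mul_dvd ⟨-k₁, 1, by push_cast at hs; linear_combination hs⟩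
      ⟨Y ^ 2 + l₂ * (X + Z) - k₁ * Z ^ 2, by
        push_cast at hs
        linear_combination (X + Z) * d2' - Z ^ 2 * hs⟩
      ⟨l₁ * (X + r * Y) + k₂ * Y ^ 2 - Z ^ 2, by linear_combination (X + r * Y) * d1' + Y ^ 2 * hr⟩
  have hb0 : (0 : ℤ) < n := by omega
  have hc0 : (0 : ℤ) < p := by omega
  push_cast at b1
  have p1 := mul_lt_mul_of_pos_left b2 hb0
  have p2 := mul_lt_mul_of_pos_left b3 hc0
  have p3 : 0 ≤ n * Y ^ 2 := by positivity
  have p5 : 0 ≤ p * Z ^ 2 := by positivity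
  have k0 : -1 < k := lt_of_mul_lt_mul_left (a := (n : ℤ) * p) (by linarith [sq_nonneg X])
    (by positivity)
  have k2 : k < 2 := lt_of_mul_lt_mul_left (a := (n : ℤ) * p) (by linarith) (by positivity)
  obtain rfl | rfl : k = 0 ∨ k = 1 := by omega
  · refine ⟨p, hp, X, Y, Z, fun hZ => hne' ⟨?_, ?_, hZ⟩, by linarith⟩
    · rw [hZ] at hk
      exact pow_eq_zero_iff two_ne_zero |>.1 (by linarith [sq_nonneg X])
    · rw [hZ] at hk
      exact pow_eq_zero_iff two_ne_zero |>.1 ((mul_eq_zero.1 (by linarith [sq_nonneg X])).resolve_left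
        hb0.ne')
  · exact ⟨p, hp, X * Z + n * Y, Y * Z - X, Z ^ 2 + n, by positivity,
      by linear_combination (Z ^ 2 + n) * hk⟩

theorem exists_odd {A : ℕ} (hA : 2 ≤ A) : ∃ z : ℤ × ℤ, et A z ≠ 0 ∧ 0 ≤ 2 * z.1 + z.2 := by
  obtain ⟨p, hp, X, Y, Z, hZ, e⟩ := exists_rep (n := 4 * A - 1) (by omega)
  refine ⟨(|X| - Y, 2 * Y), ?_, by simp only; linarith [abs_nonneg X]⟩
  rw [et, show nq A (|X| - Y, 2 * Y) = Z ^ 2 * p by
      rw [Nat.cast_sub (by omega)] at e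
      push_cast at e
      simp only [nq]
      linear_combination e + sq_abs X,
    Int.natAbs_mul, Int.natAbs_pow, card_sq_mul (Int.natAbs_ne_zero.2 hZ), Int.natAbs_natCast,
    ArithmeticFunction.cardFactors_apply_prime hp]
  simp

end Pool.Agent.P.MP_8be758_nt.Par
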