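import Pool.Agent.P.MP_8be758_nt.Par.Word
import Pool.Agent.P.MP_8be758_nt.Par.Odd
import Pool.Agent.P.MP_8be758_nt.Par.Div

/-! Many values of `x ^ 2 + x + A` have an odd number of prime factors. -/

set_option autoImplicit false

namespace Pool.Agent.P.MP_8be758_nt.Par

open Finset Filter
open ArithmeticFunction (cardFactors)

theorem main {A : ℕ} (hA : 2 ≤ A) : ∃ c : ℝ, 0 < c ∧ ∀ᶠ N : ℕ in atTop, c * N / Real.log N ^ 112 ≤
    ({x ∈ range (N + 1) | Odd (cardFactors (x ^ 2 + x + A))}.card : ℝ) := by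
  obtain ⟨z, hz, hre⟩ := exists_odd hA
  obtain ⟨K, hK, H⟩ := few_edges hA hz hre
  refine ⟨((8 * K * 3 ^ 40) ^ 2 * (4 * (4 * A + 2)) * 3 ^ 32)⁻¹, by positivity, ?_⟩
  filter_upwards [eventually_ge_atTop A, eventually_ge_atTop 3, tendsto_natCast_atTop_atTop.eventually
    ((Real.isLittleO_pow_log_id_atTop (n := 40)).bound (c := (2 * K * 3 ^ 40)⁻¹) (by positivity))]
    with N h1 h2 h3
  obtain ⟨B, hB, hc⟩ := exists_cover hA N
  have h4 := H N (Nat.log 2 N) B hB (Nat.lt_pow_succ_log_self one_lt_two N).le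
  have h5 := second_moment hA h1
  have N3 : (3 : ℝ) ≤ N := by exact_mod_cast h2
  have L1 : 1 ≤ Real.log N := (Real.le_log_iff_exp_le (by linarith)).2
    (by linarith [Real.exp_one_lt_d9])
  have h6 : (Nat.log 2 N : ℝ) + 1 ≤ 3 * Real.log N := by
    have h := Real.natLog_le_logb N 2
    rw [Real.logb, Nat.cast_ofNat, le_div_iff₀ (Real.log_pos one_lt_two)] at h
    nlinarith [Real.log_two_gt_d9, Nat.cast_nonneg (α := ℝ) (Nat.log 2 N)]
  have h7 : 1 + Real.log (2 * N : ℕ) ≤ 3 * Real.log N := by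
    rw [Nat.cast_mul, Real.log_mul (by norm_num) (by linarith), Nat.cast_ofNat]
    linarith [Real.log_two_lt_d9]
  simp only [id, Real.norm_of_nonneg (Nat.cast_nonneg N),
    Real.norm_of_nonneg (pow_nonneg (zero_le_one.trans L1) 40)] at h3
  rw [← div_eq_inv_mul, le_div_iff₀ (by positivity)] at h3
  generalize Real.log N = L at *
  obtain ⟨S, hS⟩ : ∃ S, S = {x ∈ range (N + 1) | Odd (cardFactors (x ^ 2 + x + A))} := ⟨_, rfl⟩
  rw [← hS] at hc ⊢
  have h8 : (N : ℝ) ≤ K * (3 * L) ^ 40 * (B.card + 1) := h4.trans (by gcongr)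
  have h9 : (B.card : ℝ) ≤ 4 * ∑ x ∈ S, ((x ^ 2 + x + A).divisors.card : ℝ) := by exact_mod_cast hc
  have h10 : (N : ℝ) ≤ 8 * K * 3 ^ 40 * L ^ 40 * ∑ x ∈ S, ((x ^ 2 + x + A).divisors.card : ℝ) := by
    have := mul_le_mul_of_nonneg_left h9 (by positivity : 0 ≤ K * (3 * L) ^ 40)
    rw [mul_pow] at h8 this
    linarith
  have h11 : (∑ x ∈ S, ((x ^ 2 + x + A).divisors.card : ℝ)) ^ 2 ≤
      S.card * (4 * (4 * A + 2) * N * (3 * L) ^ 32) :=
    sq_sum_le_card_mul_sum_sq.trans (mul_le_mul_of_nonneg_left ((sum_le_sum_of_subset_of_nonneg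
      (hS ▸ filter_subset _ _) fun _ _ _ => by positivity).trans (h5.trans (by gcongr)))
        (Nat.cast_nonneg _))
  rw [div_le_iff₀ (by positivity), inv_mul_le_iff₀ (by positivity)]
  refine le_of_mul_le_mul_left ?_ (by linarith : (0 : ℝ) < N)
  calc (N : ℝ) * N = N ^ 2 := (sq _).symm
    _ ≤ (8 * K * 3 ^ 40 * L ^ 40 * ∑ x ∈ S, ((x ^ 2 + x + A).divisors.card : ℝ)) ^ 2 := by gcongr
    _ ≤ (8 * K * 3 ^ 40 * L ^ 40) ^ 2 * (S.card * (4 * (4 * A + 2) * N * (3 * L) ^ 32)) := by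
      rw [mul_pow]
      gcongr
    _ = _ := by ring

end Pool.Agent.P.MP_8be758_nt.Par
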