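import Pool.Agent.P.MP_8be758_nt.Par.Geo
import Pool.Agent.P.MP_8be758_nt.Par.Alg

/-! Short words of tiny angle, and the lower bound for the number of changes of parity. -/

set_option autoImplicit false

namespace Pool.Agent.P.MP_8be758_nt.Par

open Complex Finset Polynomial

theorem exists_equal_sums (j : ℕ) : ∃ T ⊆ range ((2 * ((j + 1) * (j + 2))) ^ 2),
    ∃ U ⊆ range ((2 * ((j + 1) * (j + 2))) ^ 2), T ≠ U ∧
      ∀ l < j + 1, ∑ i ∈ T, i ^ l = ∑ i ∈ U, i ^ l := by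
  obtain ⟨m, hm⟩ : ∃ m, m = 2 * ((j + 1) * (j + 2)) := ⟨_, rfl⟩
  rw [← hm]
  have m2 : 2 ≤ m ^ 2 := by nlinarith [Nat.zero_le (j * j)]
  obtain ⟨T, hT, U, hU, hne, e⟩ := exists_ne_map_eq_of_card_lt_of_maps_to
    (s := (range (m ^ 2)).powerset)
    (t := Fintype.piFinset fun _ : Fin (j + 1) => range ((m ^ 2) ^ (j + 2)))
    (f := fun T (l : Fin (j + 1)) => ∑ i ∈ T, i ^ (l : ℕ)) (by
      rw [Fintype.card_piFinset_const, card_range, card_powerset, card_range, ← pow_mul, ← pow_mul,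
        mul_comm (j + 2), ← hm, sq, pow_mul]
      exact Nat.pow_lt_pow_left Nat.lt_two_pow_self (by rw [hm]; positivity)) fun T hT => by
      simp only [coe_powerset, Set.mem_preimage, Set.mem_powerset_iff, coe_subset] at hT
      simp only [Fintype.coe_piFinset, Set.mem_pi, Set.mem_univ, true_imp_iff, mem_coe, mem_range]
      intro l
      calc _ ≤ T.card • (m ^ 2) ^ (l : ℕ) := sum_le_card_nsmul _ _ _ fun i hi =>
            Nat.pow_le_pow_left (mem_range.1 (hT hi)).le _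
        _ ≤ m ^ 2 * (m ^ 2) ^ (l : ℕ) := Nat.mul_le_mul_right _ (by simpa using card_le_card hT)
        _ < _ := by
          rw [← pow_succ']
          exact Nat.pow_lt_pow_right m2 (by omega)
  exact ⟨T, mem_powerset.1 hT, U, mem_powerset.1 hU, hne, fun l hl => congrFun e ⟨l, hl⟩⟩

theorem sum_arg {j n : ℕ} {T U : Finset ℕ} (hT : T ⊆ range n) (hU : U ⊆ range n)
    (h : ∀ l < j + 1, ∑ i ∈ T, i ^ l = ∑ i ∈ U, i ^ l) {w : ℂ} (hw : n * ‖w‖ ≤ 1 / 2) :
    |∑ i ∈ T, arg (1 + i * w) - ∑ i ∈ U, arg (1 + i * w)| * 2 ^ (j + 1) ≤ 2 * (T.card + U.card) := by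
  have e : ∀ V : Finset ℕ, ∑ i ∈ V, logTaylor (j + 1) (i * w) =
      ∑ l ∈ range (j + 1), (-1) ^ (l + 1) * ((∑ i ∈ V, i ^ l : ℕ) * w ^ l) / l := fun V => by
    simp only [logTaylor, mul_pow]
    rw [sum_comm]
    push_cast
    simp only [sum_mul, mul_sum, sum_div]
  have b : ∀ V ⊆ range n, |∑ i ∈ V, arg (1 + i * w) - (∑ i ∈ V, logTaylor (j + 1) (i * w)).im| ≤
      V.card * (2 / 2 ^ (j + 1)) := fun V hV => by
    rw [im_sum, ← sum_sub_distrib, ← nsmul_eq_mul]
    refine (abs_sum_le_sum_abs _ _).trans (sum_le_card_nsmul _ _ _ fun i hi => ?_)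
    have h1 : ‖i * w‖ ≤ 1 / 2 := by
      rw [norm_mul, norm_natCast]
      exact (mul_le_mul_of_nonneg_right (by exact_mod_cast (mem_range.1 (hV hi)).le)
        (norm_nonneg _)).trans hw
    rw [← log_im, ← sub_im]
    refine (abs_im_le_norm _).trans ((norm_log_sub_logTaylor_le j (by linarith)).trans ?_)
    calc _ ≤ (1 / 2) ^ (j + 1) * (1 - 1 / 2 : ℝ)⁻¹ / 1 := by
          gcongr
          exacts [inv_nonneg.2 (by linarith), by simp]
      _ = _ := by rw [one_div_pow]; ring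
  have b1 := b T hT
  have b2 := b U hU
  rw [e, sum_congr (s₁ := range (j + 1)) rfl fun l hl => by rw [h l (mem_range.1 hl)], ← e] at b1
  rw [← le_div_iff₀ (by positivity)]
  rw [abs_sub_comm] at b2
  refine (abs_sub_le _ _ _).trans ((add_le_add b1 b2).trans (le_of_eq ?_))
  ring

variable {A : ℕ}

theorem sums_eq (hA : 2 ≤ A) {N : ℕ} {B : Finset (ℤ × ℤ)} (hB : Covers A (√N) B) {j n : ℕ}
    (hN : N ≤ 2 ^ (j + 1)) {T U : Finset ℕ} (hT : T ⊆ range n) (hU : U ⊆ range n)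
    (h : ∀ l < j + 1, ∑ i ∈ T, i ^ l = ∑ i ∈ U, i ^ l) {R : ℝ} (hR : 1 ≤ R) (hn : 1 ≤ n)
    (big : 2 ^ 16 * (A + 1) ^ 4 * (2 * R) ^ 2 * (2 * n + 1) ^ 2 * (B.card + 1) < (N : ℝ))
    (α d : ℤ × ℤ) (h1 : 2 * n * ‖io A d‖ ≤ ‖io A α‖) (h2 : ‖io A α‖ ≤ R) :
    ∑ i ∈ T, et A (α + i • d) = ∑ i ∈ U, et A (α + i • d) := by
  have n1 : (1 : ℝ) ≤ n := by exact_mod_cast hn
  rcases eq_or_ne α 0 with rfl | h0
  · obtain rfl : d = 0 := by
      by_contra hd
      have := one_le_norm_io hA hd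
      rw [show io A 0 = 0 by simp [io], norm_zero] at h1
      nlinarith
    simp [et, nq]
  have p0 : 0 < ‖io A α‖ := one_pos.trans_le (one_le_norm_io hA h0)
  obtain ⟨w, hw⟩ : ∃ w, w = io A d / io A α := ⟨_, rfl⟩
  have w1 : n * ‖w‖ ≤ 1 / 2 := by
    rw [hw, norm_div, ← mul_div_assoc, div_le_iff₀ p0]
    linarith
  have L : ∀ i ∈ range n, Letter A (2 * R) (α + i • d) (arg (io A α) + arg (1 + i * w)) :=
    fun i hi => by
      have e : io A (α + i • d) = io A α * (1 + i * w) := by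
        rw [io_add, io_nsmul, hw]
        field_simp [norm_pos_iff.1 p0]
      have h3 : ‖i * w‖ ≤ 1 / 2 := by
        rw [norm_mul, norm_natCast]
        exact (mul_le_mul_of_nonneg_right (by exact_mod_cast (mem_range.1 hi).le)
          (norm_nonneg _)).trans w1
      have h4 := norm_add_le 1 (i * w)
      have h5 := norm_sub_le (1 + i * w) (i * w)
      rw [add_sub_cancel_right] at h5
      rw [norm_one] at h4 h5
      have h6 : 0 < ‖io A α‖ * ‖1 + i * w‖ := mul_pos p0 (by linarith)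
      refine ⟨fun h => ?_, ?_, _, h6, ?_⟩
      · rw [← norm_mul, ← e, h] at h6
        simp [io] at h6
      · rw [e, norm_mul]
        nlinarith
      · rw [e]
        conv_lhs => rw [← norm_mul_exp_arg_mul_I (io A α), ← norm_mul_exp_arg_mul_I (1 + i * w)]
        push_cast
        rw [add_mul, exp_add]
        ring
  have c : T.card = U.card := by simpa using h 0 j.succ_pos
  have cT : (U.card : ℝ) ≤ n := by exact_mod_cast (card_le_card hU).trans (card_range n).le
  by_contra hne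
  refine big.not_ge ((geo hA hB (ρ₂ := 2 * R) (by linarith) (ι := ℕ ⊕ ℕ)
    (Sum.elim (fun i => α + i • d) fun i => cj (α + i • d))
    (Sum.elim (fun i => arg (io A α) + arg (1 + i * w)) fun i => -(arg (io A α) + arg (1 + i * w)))
    (T.disjSum U) ?_ ?_ ?_).trans ?_)
  · rintro (i | i) hi
    · exact L i (hT (inl_mem_disjSum.1 hi))
    · obtain ⟨a, b, r, hr, e⟩ := L i (hU (inr_mem_disjSum.1 hi))
      refine ⟨cj_ne hA a, by rwa [Sum.elim_inr, io_cj, norm_conj], r, hr, ?_⟩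
      rw [Sum.elim_inr, Sum.elim_inr, io_cj, e, map_mul, conj_ofReal, ← exp_conj, map_mul,
        conj_ofReal, conj_I, ofReal_neg, mul_neg, neg_mul]
  · have := sum_arg hT hU h w1
    rw [sum_disjSum, card_disjSum, Nat.cast_add]
    refine le_trans (mul_le_mul (le_of_eq ?_) (by exact_mod_cast hN) (Nat.cast_nonneg _)
      (abs_nonneg _)) this
    simp only [Sum.elim_inl, Sum.elim_inr, sum_neg_distrib, sum_add_distrib, sum_const, c]
    congr 1
    ring
  · rw [sum_disjSum]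
    simp only [Sum.elim_inl, Sum.elim_inr, et_cj]
    exact fun h => hne (CharTwo.add_eq_zero.1 h)
  · rw [card_disjSum, c, Nat.cast_add]
    gcongr
    linarith

theorem few_edges (hA : 2 ≤ A) {z : ℤ × ℤ} (hz : et A z ≠ 0) (hre : 0 ≤ 2 * z.1 + z.2) :
    ∃ K : ℝ, 0 < K ∧ ∀ (N j : ℕ) (B : Finset (ℤ × ℤ)), Covers A (√N) B → N ≤ 2 ^ (j + 1) →
      N ≤ K * (j + 1) ^ 40 * (B.card + 1) := by
  obtain ⟨c, hc⟩ := exists_nat_ge (‖io A z‖ + 1)
  have c1 : (1 : ℝ) ≤ c := by linarith [norm_nonneg (io A z)]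
  refine ⟨2 ^ 16 * (A + 1) ^ 4 * (2 * 1536 * c ^ 2) ^ 2 * 9 * 16 ^ 10, by positivity,
    fun N j B hB hN => ?_⟩
  obtain ⟨T, hT, U, hU, hne, h⟩ := exists_equal_sums j
  obtain ⟨n, hn⟩ : ∃ n, n = (2 * ((j + 1) * (j + 2))) ^ 2 := ⟨_, rfl⟩
  rw [← hn] at hT hU
  have n0 : 1 ≤ n := hn ▸ Nat.succ_le_of_lt (by positivity)
  have n1 : (1 : ℝ) ≤ n := by exact_mod_cast n0
  have n2 : (n : ℝ) ≤ 16 * (j + 1) ^ 4 := by
    rw [hn]
    push_cast
    calc _ ≤ (2 * ((j + 1) * (2 * (j + 1))) : ℝ) ^ 2 := by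
          gcongr
          linarith [Nat.cast_nonneg (α := ℝ) j]
      _ = _ := by ring
  have R1 : (1 : ℝ) ≤ 1536 * n ^ 4 * c ^ 2 := one_le_mul_of_one_le_of_one_le
    (one_le_mul_of_one_le_of_one_le (by norm_num) (one_le_pow₀ n1)) (one_le_pow₀ c1)
  refine le_trans (not_lt.1 fun big => ?_ : (N : ℝ) ≤ 2 ^ 16 * (A + 1) ^ 4 *
    (2 * (1536 * n ^ 4 * c ^ 2)) ^ 2 * (2 * n + 1) ^ 2 * (B.card + 1)) ?_
  swap
  · calc _ ≤ 2 ^ 16 * (A + 1) ^ 4 * (2 * (1536 * (16 * (j + 1) ^ 4) ^ 4 * c ^ 2)) ^ 2 *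
          (3 * (16 * (j + 1) ^ 4)) ^ 2 * (B.card + 1 : ℝ) := by
          gcongr
          linarith
      _ = _ := by ring
  let φ := algebraMap (ZMod 2) (AlgebraicClosure (ZMod 2))
  have e : ∀ (V : Finset ℕ) (α d : ℤ × ℤ), ann (fun z => φ (et A z)) α d (∑ i ∈ V, monomial i 1) =
      φ (∑ i ∈ V, et A (α + i • d)) := fun V α d => by
    simp only [map_sum, ann_monomial, one_mul]
  have dg : ∀ V ⊆ range n, (∑ i ∈ V, monomial i (1 : AlgebraicClosure (ZMod 2))).natDegree ≤ n - 1 :=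
    fun V hV => natDegree_sum_le_of_forall_le _ _ fun i hi => (natDegree_monomial_le _).trans (by
      have := mem_range.1 (hV hi)
      omega)
  have key := loc (ι := AddMonoidHom.mk' (io A) io_add) (f := fun z => φ (et A z))
    (fun m hm z => by rw [← natCast_zsmul, et_smul (by omega)]) (n := n)
    (c := ∑ i ∈ T, monomial i 1 - ∑ i ∈ U, monomial i 1) (fun h => hne (by
      ext i
      have := congrArg (coeff · i) (sub_eq_zero.1 h)
      simp only [finsetSum_coeff, coeff_monomial, sum_ite_eq'] at this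
      split_ifs at this <;> simp_all))
    (lt_of_le_of_lt ((natDegree_sub_le _ _).trans (max_le (dg T hT) (dg U hU))) (by omega))
    (zero_le_one.trans R1) fun α d h1 h2 => by
      rw [map_sub, e, e, sums_eq hA hB hN hT hU h R1 n0 big α d h1 h2, sub_self]
  simp only [AddMonoidHom.mk'_apply, φ.injective.eq_iff] at key
  obtain ⟨W, hW⟩ : ∃ W, W = 24 * n ^ 2 * c := ⟨_, rfl⟩
  have hW' : (W : ℝ) = 24 * n ^ 2 * c := by exact_mod_cast hW
  have i1 : ∀ m : ℤ, io A (m, 0) = m := fun m => by simp [io]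
  have z0 : z ≠ 0 := fun h => hz (by simp [h, et, nq])
  have walk : ∀ k : ℕ, k ≤ W → et A (((W : ℤ), 0) + k • (z - (1, 0))) = 0 := fun k hk => by
    induction k with
    | zero => simpa using et_int W
    | succ k ih =>
      have k1 : (k : ℝ) ≤ W := by exact_mod_cast hk.trans' k.le_succ
      have k2 : (k : ℤ) ≤ W := by omega
      rw [succ_nsmul, ← add_assoc, key, ih (by omega)]
      · have h1 : ‖io A (z - (1, 0))‖ ≤ c := by
          rw [io_sub, i1]
          exact (norm_sub_le _ _).trans (by simpa using hc)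
        refine (mul_le_mul_of_nonneg_left h1 (by positivity)).trans
          (abs_le_of_sq_le_sq' ?_ (norm_nonneg _)).2
        have h2 : (W : ℤ) ^ 2 ≤ 4 * nq A (((W : ℤ), 0) + k • (z - (1, 0))) := by
          have h3 : nq A (((W : ℤ), 0) + k • (z - (1, 0))) =
              (W - k) ^ 2 + (W - k) * k * (2 * z.1 + z.2) + k ^ 2 * nq A z := by
            simp [nq]
            ring
          have h4 := nq_pos hA z0
          have h5 := mul_nonneg (mul_nonneg (sub_nonneg.2 k2) (Int.natCast_nonneg k)) hre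
          nlinarith [sq_nonneg (W - 2 * k : ℤ), sq_nonneg (k : ℤ)]
        have h3 : (W : ℝ) ^ 2 ≤ 4 * nq A (((W : ℤ), 0) + k • (z - (1, 0))) := by exact_mod_cast h2
        rw [norm_io_sq hA]
        rw [hW'] at h3
        linarith
      · rw [show io A (((W : ℤ), 0) + k • (z - (1, 0))) = (W - k : ℝ) + k * io A z by
          rw [io_add, io_nsmul, io_sub, i1, i1]; push_cast; ring]
        refine (norm_add_le _ _).trans ?_
        rw [norm_mul, norm_natCast, norm_real, Real.norm_of_nonneg (by linarith),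
          show (1536 * n ^ 4 * c ^ 2 / (64 * n ^ 2) : ℝ) = W * c by rw [hW']; field_simp; ring]
        nlinarith [Nat.cast_nonneg (α := ℝ) k]
  have := walk W le_rfl
  rw [show ((W, 0) : ℤ × ℤ) + W • (z - (1, 0)) = (W : ℤ) • z by ext <;> simp; ring, et_smul] at this
  · exact hz this
  · have : 0 < c := by exact_mod_cast one_pos.trans_le c1
    rw [hW]
    positivity

end Pool.Agent.P.MP_8be758_nt.Par
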